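import Mathlib

/-! Elementary one-variable calculus lemmas used for MP_815fa1_an. -/

open Set Filter Topology

namespace Pool.Agent.MP815fa1

/-- First time a continuous function, positive at `a`, becomes nonpositive. -/
lemma first_nonpos {f : ℝ → ℝ} {a b : ℝ} (hab : a ≤ b) (hf : ContinuousOn f (Icc a b))
    (ha : 0 < f a) (hb : f b ≤ 0) :
    ∃ c ∈ Ioc a b, f c = 0 ∧ ∀ x ∈ Ico a c, 0 < f x := by
  set S := Icc a b ∩ f ⁻¹' Iic 0 with hS
  have hcl : IsClosed S := hf.preimage_isClosed_of_isClosed isClosed_Icc isClosed_Iic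
  have hco : IsCompact S := isCompact_Icc.of_isClosed_subset hcl inter_subset_left
  obtain ⟨c, hcS, hc⟩ := hco.exists_isLeast ⟨b, ⟨⟨hab, le_rfl⟩, hb⟩⟩
  have hca : a < c := lt_of_le_of_ne hcS.1.1 (by rintro rfl; exact absurd hcS.2 (not_le.2 ha))
  have hpos : ∀ x ∈ Ico a c, 0 < f x := by
    intro x hx
    by_contra h
    exact absurd (hc ⟨⟨hx.1, hx.2.le.trans hcS.1.2⟩, not_lt.1 h⟩) (not_le.2 hx.2)
  refine ⟨c, ⟨hca, hcS.1.2⟩, le_antisymm hcS.2 ?_, hpos⟩
  by_contra h
  push Not at h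
  obtain ⟨x, hx, hfx⟩ := intermediate_value_Icc' hca.le
    (hf.mono (Icc_subset_Icc_right hcS.1.2)) ⟨h.le, ha.le⟩
  rcases lt_or_eq_of_le hx.2 with h1 | h1
  · exact absurd hfx (hpos x ⟨hx.1, h1⟩).ne'
  · rw [h1] at hfx; exact absurd hfx h.ne

/-- Last time a continuous function, positive at `b`, is nonpositive. -/
lemma last_nonpos {f : ℝ → ℝ} {a b : ℝ} (hab : a ≤ b) (hf : ContinuousOn f (Icc a b))
    (ha : f a ≤ 0) (hb : 0 < f b) :
    ∃ c ∈ Ico a b, f c = 0 ∧ ∀ x ∈ Ioc c b, 0 < f x := by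
  obtain ⟨c, hc, h0, h1⟩ := first_nonpos (f := fun x => f (-x)) (a := -b) (b := -a)
    (neg_le_neg hab)
    (hf.comp continuous_neg.continuousOn (by
      intro x hx
      simp only [mem_Icc] at hx ⊢
      constructor <;> linarith [hx.1, hx.2]))
    (by simpa using hb) (by simpa using ha)
  refine ⟨-c, ⟨by linarith [hc.2], by linarith [hc.1]⟩, h0, ?_⟩
  intro x hx
  have := h1 (-x) ⟨by linarith [hx.2], by linarith [hx.1]⟩
  simpa using this

lemma eventually_left_lt {f : ℝ → ℝ} {f' s : ℝ} (h : HasDerivAt f f' s) (hf : 0 < f') :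
    ∀ᶠ x in 𝓝[<] s, f x < f s := by
  have h1 : Tendsto (slope f s) (𝓝[<] s) (𝓝 f') :=
    (hasDerivAt_iff_tendsto_slope.1 h).mono_left (nhdsWithin_mono _ (by
      intro x hx; exact ne_of_lt hx))
  filter_upwards [h1.eventually (lt_mem_nhds hf), self_mem_nhdsWithin] with x hx hxs
  rw [slope_def_field] at hx
  have : x - s < 0 := sub_neg.2 hxs
  have h2 : (f x - f s) < 0 := by
    by_contra hcon
    push Not at hcon
    exact absurd hx (not_lt.2 (div_nonpos_of_nonneg_of_nonpos hcon this.le))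
  linarith

lemma eventually_right_gt {f : ℝ → ℝ} {f' s : ℝ} (h : HasDerivAt f f' s) (hf : 0 < f') :
    ∀ᶠ x in 𝓝[>] s, f s < f x := by
  have h1 : Tendsto (slope f s) (𝓝[>] s) (𝓝 f') :=
    (hasDerivAt_iff_tendsto_slope.1 h).mono_left (nhdsWithin_mono _ (by
      intro x hx; exact ne_of_gt hx))
  filter_upwards [h1.eventually (lt_mem_nhds hf), self_mem_nhdsWithin] with x hx hxs
  rw [slope_def_field] at hx
  have : 0 < x - s := sub_pos.2 hxs
  have h2 : 0 < (f x - f s) := by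
    by_contra hcon
    push Not at hcon
    exact absurd hx (not_lt.2 (div_nonpos_of_nonpos_of_nonneg hcon this.le))
  linarith

lemma eventually_left_gt {f : ℝ → ℝ} {f' s : ℝ} (h : HasDerivAt f f' s) (hf : f' < 0) :
    ∀ᶠ x in 𝓝[<] s, f s < f x := by
  filter_upwards [eventually_left_lt h.fun_neg (neg_pos.2 hf)] with x hx
  linarith

lemma eventually_right_lt {f : ℝ → ℝ} {f' s : ℝ} (h : HasDerivAt f f' s) (hf : f' < 0) :
    ∀ᶠ x in 𝓝[>] s, f x < f s := by
  filter_upwards [eventually_right_gt h.fun_neg (neg_pos.2 hf)] with x hx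
  linarith

lemma mono_Icc {f : ℝ → ℝ} {a b : ℝ} (hc : ContinuousOn f (Icc a b))
    (hd : ∀ t ∈ Ioo a b, ∃ d, 0 ≤ d ∧ HasDerivAt f d t) : MonotoneOn f (Icc a b) := by
  refine monotoneOn_of_deriv_nonneg (convex_Icc a b) hc ?_ ?_
  · intro t ht
    rw [interior_Icc] at ht
    obtain ⟨d, -, h⟩ := hd t ht
    exact h.differentiableAt.differentiableWithinAt
  · intro t ht
    rw [interior_Icc] at ht
    obtain ⟨d, h0, h⟩ := hd t ht
    rw [h.deriv]; exact h0

lemma anti_Icc {f : ℝ → ℝ} {a b : ℝ} (hc : ContinuousOn f (Icc a b))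
    (hd : ∀ t ∈ Ioo a b, ∃ d, d ≤ 0 ∧ HasDerivAt f d t) : AntitoneOn f (Icc a b) := by
  have := mono_Icc (f := fun x => - f x) (a := a) (b := b) hc.neg (by
    intro t ht
    obtain ⟨d, h0, h⟩ := hd t ht
    exact ⟨-d, by linarith, h.fun_neg⟩)
  intro x hx y hy hxy
  have := this hx hy hxy
  simp only at this
  linarith

lemma strictMono_Icc {f : ℝ → ℝ} {a b : ℝ} (hc : ContinuousOn f (Icc a b))
    (hd : ∀ t ∈ Ioo a b, ∃ d, 0 ≤ d ∧ HasDerivAt f d t)
    (hpos : ∀ t ∈ Ioo a b, ∀ᶠ s in 𝓝[≠] t, ∃ d, 0 < d ∧ HasDerivAt f d s) :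
    StrictMonoOn f (Icc a b) := by
  have hm := mono_Icc hc hd
  intro x hx y hy hxy
  set m := (x + y) / 2 with hm'
  have hxm : x < m := by rw [hm']; linarith
  have hmy : m < y := by rw [hm']; linarith
  have h1 := hpos m ⟨hx.1.trans_lt hxm, hmy.trans_le hy.2⟩
  have h2 : ∀ᶠ s in 𝓝[≠] m, s ∈ Ioo x y :=
    (Ioo_mem_nhds hxm hmy : Ioo x y ∈ 𝓝 m) |> mem_nhdsWithin_of_mem_nhds
  obtain ⟨s, ⟨d, hd0, hds⟩, hs⟩ := (h1.and h2).exists
  have h3 := (eventually_right_gt hds hd0).and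
    ((Ioo_mem_nhdsGT hs.2 : Ioo s y ∈ 𝓝[>] s))
  obtain ⟨z, hz1, hz2⟩ := h3.exists
  calc f x ≤ f s := hm hx ⟨hx.1.trans hs.1.le, hs.2.le.trans hy.2⟩ hs.1.le
    _ < f z := hz1
    _ ≤ f y := hm ⟨hx.1.trans (hs.1.trans hz2.1).le, hz2.2.le.trans hy.2⟩ hy hz2.2.le

/-- A function continuous at `c`, eventually positive and with nonnegative derivative just
before `c`, is positive at `c`. -/
lemma pos_of_left {f : ℝ → ℝ} {c : ℝ} (hc : ContinuousAt f c)
    (hp : ∀ᶠ t in 𝓝[<] c, 0 < f t)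
    (hd : ∀ᶠ t in 𝓝[<] c, ∃ d, 0 ≤ d ∧ HasDerivAt f d t) : 0 < f c := by
  obtain ⟨l, hl, hlc⟩ := (mem_nhdsLT_iff_exists_Ioo_subset' (show c - 1 < c by linarith)).1
    (hp.and hd)
  set t := (l + c) / 2 with ht
  have hl' : l < c := hl
  have hlt : l < t := by rw [ht]; linarith
  have htc : t < c := by rw [ht]; linarith
  have hm : MonotoneOn f (Icc t c) := by
    refine mono_Icc ?_ ?_
    · intro x hx
      rcases lt_or_eq_of_le hx.2 with h | h
      · obtain ⟨d, -, hd'⟩ := (hlc ⟨hlt.trans_le hx.1, h⟩).2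
        exact hd'.continuousAt.continuousWithinAt
      · rw [h]; exact hc.continuousWithinAt
    · intro x hx
      exact (hlc ⟨hlt.trans hx.1, hx.2⟩).2
  exact ((hlc ⟨hlt, htc⟩).1).trans_le (hm ⟨le_rfl, htc.le⟩ ⟨htc.le, le_rfl⟩ htc.le)

/-- If `R → 1` at `0+` and `R` is increasing wherever `R ≤ 1`, then `R > 1` near `0+`. -/
lemma gt_one_of_limit {R : ℝ → ℝ} (hlim : Tendsto R (𝓝[>] 0) (𝓝 1))
    (hc : ∀ᶠ t in 𝓝[>] (0 : ℝ), ContinuousAt R t)
    (h : ∀ᶠ t in 𝓝[>] (0 : ℝ), R t ≤ 1 → ∃ d, 0 < d ∧ HasDerivAt R d t) :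
    ∀ᶠ t in 𝓝[>] (0 : ℝ), 1 < R t := by
  obtain ⟨e, he, hlc⟩ := (mem_nhdsGT_iff_exists_Ioo_subset' (show (0 : ℝ) < 1 by norm_num)).1
    (hc.and h)
  have he' : 0 < e := he
  have key : ∀ s ∈ Ioo 0 e, R s ≤ 1 → ∀ x ∈ Ioo 0 s, R x < R s := by
    intro s hs hRs x hx
    by_contra hcon
    push Not at hcon
    obtain ⟨d, hd0, hd⟩ := (hlc hs).2 hRs
    obtain ⟨y, hy1, hy2⟩ := ((eventually_left_lt hd hd0).and (Ioo_mem_nhdsLT hx.2)).exists
    obtain ⟨c, hc1, hc2, hc3⟩ := last_nonpos (f := fun τ => R s - R τ) (a := x) (b := y)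
      hy2.1.le (by
        intro τ hτ
        exact (continuousAt_const.sub
          (hlc ⟨hx.1.trans_le hτ.1, (hτ.2.trans hy2.2.le).trans_lt hs.2⟩).1).continuousWithinAt)
      (by linarith) (by linarith)
    have hce : c ∈ Ioo 0 e := ⟨hx.1.trans_le hc1.1, (hc1.2.trans hy2.2).trans hs.2⟩
    have hRc : R c = R s := by linarith
    obtain ⟨d', hd0', hd'⟩ := (hlc hce).2 (by rw [hRc]; exact hRs)
    obtain ⟨z, hz1, hz2⟩ := ((eventually_right_gt hd' hd0').and (Ioo_mem_nhdsGT hc1.2)).exists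
    have := hc3 z ⟨hz2.1, hz2.2.le⟩
    linarith
  filter_upwards [Ioo_mem_nhdsGT he'] with t ht
  by_contra hcon
  push Not at hcon
  have h2 : t / 2 ∈ Ioo 0 t := ⟨by linarith [ht.1], by linarith [ht.1]⟩
  have h3 := key t ht hcon (t / 2) h2
  have h4 : ∀ᶠ x in 𝓝[>] (0 : ℝ), R x ≤ R (t / 2) := by
    filter_upwards [Ioo_mem_nhdsGT h2.1] with x hx
    exact (key (t / 2) ⟨h2.1, h2.2.trans ht.2⟩ (by linarith) x hx).le
  have h5 := le_of_tendsto hlim h4
  linarith

/-- Inverse of a function which is continuous, strictly increasing on `(-∞, T]` and tends to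
`-∞` at `-∞`. -/
lemma exists_inverse {f : ℝ → ℝ} {T : ℝ} (hc : Continuous f) (hm : StrictMonoOn f (Iic T))
    (hb : Tendsto f atBot atBot) :
    ∃ g : ℝ → ℝ, Continuous g ∧ StrictMono g ∧ (∀ t ≤ T, g (f t) = t) ∧
      (∀ y ≤ f T, g y ≤ T ∧ f (g y) = y) := by
  set F : ℝ → ℝ := fun t => f (min t T) + max (t - T) 0 with hF
  have hFc : Continuous F := by
    rw [hF]; fun_prop
  have hFm : StrictMono F := by
    intro x y hxy
    simp only [hF]
    rcases le_or_gt y T with hy | hy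
    · have hx : x ≤ T := hxy.le.trans hy
      rw [min_eq_left hx, min_eq_left hy, max_eq_right (by linarith), max_eq_right (by linarith)]
      have := hm hx hy hxy
      linarith
    · rcases le_or_gt x T with hx | hx
      · rw [min_eq_left hx, min_eq_right hy.le, max_eq_right (by linarith),
          max_eq_left (by linarith)]
        have := hm.monotoneOn hx (le_refl T) hx
        linarith
      · rw [min_eq_right hx.le, min_eq_right hy.le, max_eq_left (by linarith),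
          max_eq_left (by linarith)]
        linarith
  have hFtop : Tendsto F atTop atTop := by
    have h1 : Tendsto (fun t : ℝ => f T + (t - T)) atTop atTop :=
      tendsto_atTop_add_const_left _ _ (tendsto_atTop_add_const_right _ _ tendsto_id)
    refine h1.congr' ?_
    filter_upwards [eventually_ge_atTop T] with t ht
    simp only [hF]
    rw [min_eq_right ht, max_eq_left (by linarith)]
  have hFbot : Tendsto F atBot atBot := by
    refine hb.congr' ?_
    filter_upwards [eventually_le_atBot T] with t ht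
    simp only [hF]
    rw [min_eq_left ht, max_eq_right (by linarith), add_zero]
  have hFs : Function.Surjective F := hFc.surjective hFtop hFbot
  set e := StrictMono.orderIsoOfSurjective F hFm hFs with he
  have hFle : ∀ t ≤ T, F t = f t := by
    intro t ht
    simp only [hF]
    rw [min_eq_left ht, max_eq_right (by linarith), add_zero]
  have heF : ∀ t, e t = F t := fun t => rfl
  refine ⟨e.symm, e.symm.continuous, e.symm.strictMono, ?_, ?_⟩
  · intro t ht
    rw [← hFle t ht, ← heF, OrderIso.symm_apply_apply]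
  · intro y hy
    have h1 : e.symm y ≤ T := by
      rw [← e.symm_apply_apply T]
      apply e.symm.monotone
      rw [heF, hFle T le_rfl]; exact hy
    refine ⟨h1, ?_⟩
    rw [← hFle _ h1, ← heF, OrderIso.apply_symm_apply]

end Pool.Agent.MP815fa1
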