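import Pool.Agent.Lib.MP_815fa1_an.NoReturn

/-! The comparison theorem between two flows. -/

open Set Filter Topology Real

namespace Pool.Agent.MP815fa1

namespace Flow

variable {k q γ : ℝ}

lemma tendsto_bH (A : Flow k q γ) (hk : 0 < k) :
    Tendsto (fun t => A.b t * H γ (A.φ t)) (𝓝[>] 0) (𝓝 (q * k / (k + 1))) := by
  have h := (tendsto_const_nhds (x := q)).sub A.lim'
  have h2 : q - q / (k + 1) = q * k / (k + 1) := by field_simp; ring
  rw [h2] at h
  refine h.congr (fun t => ?_)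
  rw [Φ]; ring

theorem compare (A B : Flow k q γ) (hk : 0 < k) (hq : 0 < q) (hγ0 : 0 < γ) (hγ : γ < 1)
    (h0 : B.w 0 < A.w 0) {T : ℝ} (hT : 0 < T) (hA : ∀ t ∈ Ioc 0 T, 0 < A.Φ t) :
    ∃ t ∈ Ioc 0 T, B.φ t = A.φ T := by
  by_contra hne
  push Not at hne
  have hlt : ∀ t ∈ Ioc 0 T, B.φ t < A.φ T := by
    intro t ht
    by_contra h
    push Not at h
    obtain ⟨x, hx, hxe⟩ := intermediate_value_Icc ht.1.le B.φ_cont.continuousOn
      (show A.φ T ∈ Icc (B.φ 0) (B.φ t) from ⟨by rw [B.φ_zero]; exact (A.φ_pos hk hq hT).le, h⟩)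
    rcases lt_or_eq_of_le hx.1 with h1 | h1
    · exact hne x ⟨h1, hx.2.trans ht.2⟩ hxe
    · rw [← h1, B.φ_zero] at hxe
      exact absurd hxe (A.φ_pos hk hq hT).ne
  obtain ⟨g, hgc, hgm, hg1, hg2⟩ := A.exists_inv hk hq (fun x (hx : x ∈ Ioo 0 T) =>
    hA x ⟨hx.1, hx.2.le⟩)
  set r : ℝ → ℝ := fun t => g (B.φ t) with hr
  have hrc : Continuous r := hgc.comp B.φ_cont
  have hr0 : r 0 = 0 := by
    have := hg1 0 hT.le
    rw [A.φ_zero] at this
    simp only [hr, B.φ_zero, this]
  have hrφ : ∀ t ∈ Ioc 0 T, A.φ (r t) = B.φ t := fun t ht => (hg2 _ (hlt t ht).le).2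
  have hrT : ∀ t ∈ Ioc 0 T, r t < T := by
    intro t ht
    rcases lt_or_eq_of_le (hg2 _ (hlt t ht).le).1 with h | h
    · exact h
    · have h1 := hrφ t ht
      have h2 : r t = T := h
      rw [h2] at h1
      exact absurd h1.symm (hlt t ht).ne
  have hrp : ∀ t ∈ Ioc 0 T, 0 < r t := by
    intro t ht
    by_contra h
    push Not at h
    have h1 := hrφ t ht
    rw [A.φ_neg _ h] at h1
    have h2 := B.φ_pos hk hq ht.1
    have h3 := mul_nonpos_of_nonneg_of_nonpos A.m_pos.le h
    linarith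
  have hΦr : ∀ t ∈ Ioc 0 T, 0 < A.Φ (r t) := fun t ht => hA _ ⟨hrp t ht, (hrT t ht).le⟩
  -- matched derivative
  set ρ : ℝ → ℝ := fun t => A.w (r t) / B.w t * (B.Φ t / A.Φ (r t)) with hρ
  have hmatch : ∀ t ∈ Ioc 0 T, cos (B.φ t) ≠ 0 → HasDerivAt r (ρ t) t := fun t ht hc =>
    A.hasDerivAt_match B hgc hg2 ht.1 (hlt t ht) (hrp t ht) (hΦr t ht).ne' hc
  -- formulas at matched points
  have hHr : ∀ t ∈ Ioc 0 T, A.Φ (r t) = q - A.b (r t) * H γ (B.φ t) := by
    intro t ht
    rw [Φ, hrφ t ht]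
  -- limits at zero
  have hIoc : ∀ᶠ t in 𝓝[>] (0 : ℝ), t ∈ Ioc 0 T := by
    filter_upwards [Ioo_mem_nhdsGT hT] with t ht using ⟨ht.1, ht.2.le⟩
  have hrlim0 : Tendsto r (𝓝[>] 0) (𝓝 0) := by
    have := hrc.tendsto 0
    rw [hr0] at this
    exact this.mono_left nhdsWithin_le_nhds
  have hrlim : Tendsto r (𝓝[>] 0) (𝓝[>] 0) :=
    tendsto_nhdsWithin_iff.2 ⟨hrlim0, hIoc.mono (fun t ht => hrp t ht)⟩
  have hwA : Tendsto (fun t => A.w (r t)) (𝓝[>] 0) (𝓝 (A.w 0)) :=
    (A.w_cont.tendsto 0).comp hrlim0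
  have hwB : Tendsto B.w (𝓝[>] 0) (𝓝 (B.w 0)) := (B.w_cont.tendsto 0).mono_left nhdsWithin_le_nhds
  have hbAH := (A.tendsto_bH hk).comp hrlim
  have hbBH := B.tendsto_bH hk
  have hqk : 0 < q * k / (k + 1) := by positivity
  have hHpos : ∀ᶠ t in 𝓝[>] (0 : ℝ), 0 < H γ (B.φ t) := by
    filter_upwards [hbBH.eventually (lt_mem_nhds hqk), self_mem_nhdsWithin] with t ht h
    exact (pos_iff_pos_of_mul_pos ht).1 (B.b_pos hk h)
  set R : ℝ → ℝ := fun t => A.b (r t) / B.b t with hR
  have hRlim : Tendsto R (𝓝[>] 0) (𝓝 1) := by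
    have h1 := hbAH.div hbBH hqk.ne'
    rw [div_self hqk.ne'] at h1
    refine h1.congr' ?_
    filter_upwards [hHpos, hIoc] with t ht h
    have h2 := (B.b_pos hk h.1).ne'
    simp only [Function.comp, Pi.div_apply, hR, hrφ t h]
    field_simp
  have hwlt : ∀ᶠ t in 𝓝[>] (0 : ℝ), B.w t < A.w (r t) := hwB.eventually_lt hwA h0
  have hcosne : ∀ᶠ t in 𝓝[>] (0 : ℝ), cos (B.φ t) ≠ 0 := by
    filter_upwards [hHpos] with t ht h
    rw [H_of_cos h] at ht
    exact lt_irrefl _ ht
  have hsmall : ∀ᶠ t in 𝓝[>] (0 : ℝ), k * γ * sin (A.φ (r t)) ^ 2 * cosh (r t) ^ 2 < 1 := by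
    have h1 : Continuous (fun x => k * γ * sin (A.φ x) ^ 2 * cosh x ^ 2) := by
      have := A.φ_cont
      have := continuous_cosh
      fun_prop
    have h2 := (h1.tendsto 0).comp hrlim0
    simp only [A.φ_zero, sin_zero] at h2
    have h3 : k * γ * (0 : ℝ) ^ 2 * cosh 0 ^ 2 < 1 := by norm_num
    exact h2.eventually (gt_mem_nhds h3)
  have hR1 : ∀ᶠ t in 𝓝[>] (0 : ℝ), 1 < R t := by
    apply gt_one_of_limit hRlim
    · filter_upwards [hIoc] with t ht
      have h1 : ContinuousAt (fun t => A.b (r t)) t :=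
        ContinuousAt.comp (f := r) (g := A.b) (A.continuousAt_b hk (hrp t ht)) hrc.continuousAt
      exact h1.div (B.continuousAt_b hk ht.1) (B.b_pos hk ht.1).ne'
    · filter_upwards [hIoc, hcosne, hwlt, hHpos, hsmall] with t ht hc hw hH hs hle
      have hbB := B.b_pos hk ht.1
      have hbA := A.b_pos hk (hrp t ht)
      have hwAp := A.w_pos (r t)
      have hwBp := B.w_pos t
      have hΦA := hΦr t ht
      have hble : A.b (r t) ≤ B.b t := by
        have : A.b (r t) / B.b t ≤ 1 := hle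
        rwa [div_le_one hbB] at this
      have hd1 : HasDerivAt (fun t => A.b (r t)) (A.db (r t) * ρ t) t :=
        HasDerivAt.comp t (h₂ := A.b) (A.hasDerivAt_b hk (hrp t ht)) (hmatch t ht hc)
      have hd := hd1.div (B.hasDerivAt_b hk ht.1) hbB.ne'
      refine ⟨_, ?_, hd⟩
      apply div_pos _ (by positivity)
      -- numerator
      have hBA : A.db (r t) * A.w (r t) < 0 := by
        rw [A.db_eq hk (hrp t ht)]
        have hsp : 0 < sinh (r t) := sinh_pos_iff.2 (hrp t ht)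
        apply mul_neg_of_pos_of_neg (by positivity)
        linarith
      have hΦle : B.Φ t / A.Φ (r t) ≤ 1 := by
        rw [div_le_one hΦA, hHr t ht, Φ]
        have := mul_le_mul_of_nonneg_right hble hH.le
        linarith
      have hnum : (A.db (r t) * ρ t * B.b t - A.b (r t) * B.db t) * B.w t =
          A.db (r t) * A.w (r t) * (B.Φ t / A.Φ (r t)) * B.b t
            - A.b (r t) * (B.db t * B.w t) := by
        simp only [hρ]
        field_simp
      have h1 : A.db (r t) * A.w (r t) ≤ A.db (r t) * A.w (r t) * (B.Φ t / A.Φ (r t)) := by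
        nlinarith
      have h2 : A.db (r t) * A.w (r t) * B.b t ≤
          A.db (r t) * A.w (r t) * (B.Φ t / A.Φ (r t)) * B.b t :=
        mul_le_mul_of_nonneg_right h1 hbB.le
      have e1 : A.db (r t) * A.w (r t) =
          A.b (r t) ^ 2 * (γ * sin (B.φ t) ^ 2 - 1 / k) + k * A.w (r t) ^ 2 := by
        simp only [db]
        rw [hrφ t ht]
        field_simp
        ring
      have e2 : B.db t * B.w t =
          B.b t ^ 2 * (γ * sin (B.φ t) ^ 2 - 1 / k) + k * B.w t ^ 2 := by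
        simp only [db]
        field_simp
        ring
      have hneg : γ * sin (B.φ t) ^ 2 - 1 / k < 0 := by
        rw [e1] at hBA
        by_contra hcon
        push Not at hcon
        have : 0 ≤ A.b (r t) ^ 2 * (γ * sin (B.φ t) ^ 2 - 1 / k) := by positivity
        have : 0 < k * A.w (r t) ^ 2 := by positivity
        linarith
      have h3 : 0 < A.db (r t) * A.w (r t) * B.b t - A.b (r t) * (B.db t * B.w t) := by
        rw [e1, e2]
        have : (A.b (r t) ^ 2 * (γ * sin (B.φ t) ^ 2 - 1 / k) + k * A.w (r t) ^ 2) * B.b t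
            - A.b (r t) * (B.b t ^ 2 * (γ * sin (B.φ t) ^ 2 - 1 / k) + k * B.w t ^ 2) =
            A.b (r t) * B.b t * ((A.b (r t) - B.b t) * (γ * sin (B.φ t) ^ 2 - 1 / k))
            + k * (A.w (r t) ^ 2 * B.b t - B.w t ^ 2 * A.b (r t)) := by ring
        rw [this]
        have h4 : 0 ≤ (A.b (r t) - B.b t) * (γ * sin (B.φ t) ^ 2 - 1 / k) :=
          mul_nonneg_of_nonpos_of_nonpos (by linarith) hneg.le
        have h5 : 0 ≤ A.b (r t) * B.b t * ((A.b (r t) - B.b t) * (γ * sin (B.φ t) ^ 2 - 1 / k)) :=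
          mul_nonneg (by positivity) h4
        have h6 : B.w t ^ 2 < A.w (r t) ^ 2 := by nlinarith
        have h7 : B.w t ^ 2 * A.b (r t) < A.w (r t) ^ 2 * B.b t :=
          mul_lt_mul h6 hble hbA (by positivity)
        have h8 : 0 < k * (A.w (r t) ^ 2 * B.b t - B.w t ^ 2 * A.b (r t)) :=
          mul_pos hk (by linarith)
        linarith
      have h4 : 0 < (A.db (r t) * ρ t * B.b t - A.b (r t) * B.db t) * B.w t := by
        rw [hnum]; linarith
      exact (pos_iff_pos_of_mul_pos h4).2 hwBp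
  have hf1 : ∀ᶠ t in 𝓝[>] (0 : ℝ), t < r t := by
    have h1 : Tendsto (fun t => R t * (B.w t / A.w (r t))) (𝓝[>] 0)
        (𝓝 (1 * (B.w 0 / A.w 0))) := hRlim.mul (hwB.div hwA (A.w_pos 0).ne')
    have h2 : 1 * (B.w 0 / A.w 0) < 1 := by
      rw [one_mul, div_lt_one (A.w_pos 0)]; exact h0
    filter_upwards [h1.eventually (gt_mem_nhds h2), hIoc] with t ht h
    have hwAp := (A.w_pos (r t)).ne'
    have hwBp := (B.w_pos t).ne'
    have hcB := coth_pos h.1
    have h3 : R t * (B.w t / A.w (r t)) = (cosh (r t) / sinh (r t)) / (cosh t / sinh t) := by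
      simp only [hR, b]
      have := (cosh_pos t).ne'
      have := (sinh_pos_iff.2 h.1).ne'
      have := (sinh_pos_iff.2 (hrp t h)).ne'
      field_simp
    rw [h3, div_lt_one hcB] at ht
    by_contra hcon
    push Not at hcon
    rcases lt_or_eq_of_le hcon with h4 | h4
    · have := coth_lt (hrp t h) h4
      linarith
    · rw [h4] at ht; exact lt_irrefl _ ht
  -- the three quantities
  set f1 : ℝ → ℝ := fun t => r t - t with hf1d
  set f2 : ℝ → ℝ := fun t => A.b (r t) - B.b t with hf2d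
  set f3 : ℝ → ℝ := fun t => A.w (r t) / B.w t - 1 with hf3d
  have hnear : ∀ᶠ t in 𝓝[>] (0 : ℝ), 0 < min (f1 t) (min (f2 t) (f3 t)) := by
    filter_upwards [hf1, hR1, hwlt, hIoc] with t h1 h2 h3 h4
    refine lt_min (by simp only [hf1d]; linarith) (lt_min ?_ ?_)
    · have : 1 < A.b (r t) / B.b t := h2
      rw [one_lt_div (B.b_pos hk h4.1)] at this
      simp only [hf2d]; linarith
    · have : 1 < A.w (r t) / B.w t := (one_lt_div (B.w_pos t)).2 h3
      simp only [hf3d]; linarith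
  obtain ⟨ε, hε, hεlc⟩ := (mem_nhdsGT_iff_exists_Ioo_subset' (show (0 : ℝ) < 1 by norm_num)).1
    hnear
  have hεp : 0 < ε := hε
  have hf1c : Continuous f1 := hrc.sub continuous_id
  have hf2c : ∀ t ∈ Ioc 0 T, ContinuousAt f2 t := by
    intro t ht
    have h1 : ContinuousAt (fun t => A.b (r t)) t :=
      ContinuousAt.comp (f := r) (g := A.b) (A.continuousAt_b hk (hrp t ht)) hrc.continuousAt
    exact h1.sub (B.continuousAt_b hk ht.1)
  have hf3c : Continuous f3 :=
    ((A.w_cont.comp hrc).div B.w_cont (fun t => (B.w_pos t).ne')).sub continuous_const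
  set t0 := min (ε / 2) T with ht0
  have ht0p : 0 < t0 := lt_min (by positivity) hT
  have ht0T : t0 ≤ T := min_le_right _ _
  have ht0ε : t0 < ε := (min_le_left _ _).trans_lt (by linarith)
  obtain ⟨c, hc, hc0, hc1⟩ := first_nonpos (f := fun t => min (f1 t) (min (f2 t) (f3 t))) ht0T
    (by
      intro t ht
      have hcc : ContinuousAt (fun t => min (f1 t) (min (f2 t) (f3 t))) t :=
        hf1c.continuousAt.min ((hf2c t ⟨ht0p.trans_le ht.1, ht.2⟩).min hf3c.continuousAt)
      exact hcc.continuousWithinAt)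
    (hεlc ⟨ht0p, ht0ε⟩)
    (by
      refine (min_le_left _ _).trans ?_
      simp only [hf1d]
      linarith [hrT T ⟨hT, le_rfl⟩])
  have hcp : 0 < c := ht0p.trans hc.1
  have hcm : c ∈ Ioc 0 T := ⟨hcp, hc.2⟩
  -- just before c
  have hleft : ∀ᶠ t in 𝓝[<] c, (t ∈ Ioc 0 T ∧ cos (B.φ t) ≠ 0) ∧
      (0 < f1 t ∧ 0 < f2 t ∧ 0 < f3 t) := by
    have h1 : ∀ᶠ t in 𝓝[<] c, cos (B.φ t) ≠ 0 :=
      (B.iso c hcp).filter_mono (nhdsWithin_mono _ (fun x hx => ne_of_lt hx))
    filter_upwards [h1, Ioo_mem_nhdsLT hc.1] with t h2 h3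
    have h4 := hc1 t ⟨h3.1.le, h3.2⟩
    rw [lt_min_iff, lt_min_iff] at h4
    exact ⟨⟨⟨ht0p.trans h3.1, h3.2.le.trans hc.2⟩, h2⟩, h4⟩
  -- f3 > 0 at c
  have h3c : 0 < f3 c := by
    refine pos_of_left hf3c.continuousAt (hleft.mono fun t ht => ht.2.2.2) ?_
    filter_upwards [hleft] with t ht
    obtain ⟨⟨htm, htc⟩, hh1, hh2, hh3⟩ := ht
    have hd1 : HasDerivAt (fun t => A.w (r t))
        (γ * A.b (r t) * sin (A.φ (r t)) ^ 2 * ρ t) t :=
      HasDerivAt.comp t (h₂ := A.w) (A.hasDerivAt_w (hrp t htm)) (hmatch t htm htc)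
    have hd := (hd1.div (B.hasDerivAt_w htm.1) (B.w_pos t).ne').sub_const 1
    refine ⟨_, ?_, hd⟩
    have hΦA := hΦr t htm
    have hwAp := A.w_pos (r t)
    have hwBp := B.w_pos t
    have hfin : (γ * A.b (r t) * sin (A.φ (r t)) ^ 2 * ρ t * B.w t
        - A.w (r t) * (γ * B.b t * sin (B.φ t) ^ 2)) =
        γ * sin (B.φ t) ^ 2 * A.w (r t) * (q * (A.b (r t) - B.b t)) / A.Φ (r t) := by
      simp only [hρ]
      rw [hrφ t htm]
      have e1 := hHr t htm
      have e2 : B.Φ t = q - B.b t * H γ (B.φ t) := rfl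
      have hne := hΦA.ne'
      field_simp
      rw [e1, e2]
      ring
    rw [hfin]
    have : 0 < A.b (r t) - B.b t := hh2
    positivity
  have hge : 0 ≤ f1 c ∧ 0 ≤ f2 c := by
    have h1 : min (f1 c) (min (f2 c) (f3 c)) = 0 := hc0
    constructor
    · rw [← h1]; exact min_le_left _ _
    · rw [← h1]; exact (min_le_right _ _).trans (min_le_left _ _)
  have hwlt_c : B.w c < A.w (r c) := by
    have : 0 < A.w (r c) / B.w c - 1 := h3c
    have h2 : 1 < A.w (r c) / B.w c := by linarith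
    rwa [one_lt_div (B.w_pos c)] at h2
  have hρc : ContinuousAt ρ c := by
    have h1 : ContinuousAt (fun t => A.Φ (r t)) c :=
      ContinuousAt.comp (f := r) (g := A.Φ) (A.continuousAt_Φ hk hγ (hrp c hcm)) hrc.continuousAt
    exact ((A.w_cont.comp hrc).continuousAt.div B.w_cont.continuousAt (B.w_pos c).ne').mul
      ((B.continuousAt_Φ hk hγ hcp).div h1 (hΦr c hcm).ne')
  have h2c : 0 < f2 c := by
    by_contra hcon
    push Not at hcon
    have hz : f2 c = 0 := le_antisymm hcon hge.2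
    have hbeq : A.b (r c) = B.b c := by
      have : A.b (r c) - B.b c = 0 := hz
      linarith
    have hD : ContinuousAt (fun t => A.db (r t) * ρ t - B.db t) c := by
      have h1 : ContinuousAt (fun t => A.db (r t)) c :=
        ContinuousAt.comp (f := r) (g := A.db) (A.continuousAt_db hk (hrp c hcm)) hrc.continuousAt
      exact (h1.mul hρc).sub (B.continuousAt_db hk hcp)
    have hDpos : 0 < A.db (r c) * ρ c - B.db c := by
      have hΦeq : A.Φ (r c) = B.Φ c := by rw [hHr c hcm, hbeq]; rfl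
      have hwAp := A.w_pos (r c)
      have hwBp := B.w_pos c
      have hΦBp : B.Φ c ≠ 0 := by rw [← hΦeq]; exact (hΦr c hcm).ne'
      have : A.db (r c) * ρ c - B.db c = k * (A.w (r c) ^ 2 - B.w c ^ 2) / B.w c := by
        simp only [hρ, db]
        rw [hΦeq, div_self hΦBp, hrφ c hcm, hbeq]
        field_simp
        ring
      rw [this]
      apply div_pos _ hwBp
      apply mul_pos hk
      nlinarith
    have : 0 < f2 c := by
      refine pos_of_left (hf2c c hcm) (hleft.mono fun t ht => ht.2.2.1) ?_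
      filter_upwards [hleft, (hD.eventually (lt_mem_nhds hDpos)).filter_mono nhdsWithin_le_nhds]
        with t ht ht2
      obtain ⟨⟨htm, htc⟩, -⟩ := ht
      have hd1 : HasDerivAt (fun t => A.b (r t)) (A.db (r t) * ρ t) t :=
        HasDerivAt.comp t (h₂ := A.b) (A.hasDerivAt_b hk (hrp t htm)) (hmatch t htm htc)
      exact ⟨_, ht2.le, hd1.sub (B.hasDerivAt_b hk htm.1)⟩
    linarith
  have h1c : 0 < f1 c := by
    by_contra hcon
    push Not at hcon
    have hz : f1 c = 0 := le_antisymm hcon hge.1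
    have hrc' : r c = c := by
      have : r c - c = 0 := hz
      linarith
    have hρ1 : 1 < ρ c := by
      have hΦA := hΦr c hcm
      have hwAp := A.w_pos (r c)
      have hwBp := B.w_pos c
      have : ρ c = (A.w (r c) * B.Φ c) / (B.w c * A.Φ (r c)) := by
        simp only [hρ]
        field_simp
      rw [this, one_lt_div (by positivity), hHr c hcm]
      have e2 : B.Φ c = q - B.b c * H γ (B.φ c) := rfl
      rw [e2]
      have e3 : A.b (r c) * B.w c = B.b c * A.w (r c) := by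
        simp only [b, hrc']
        ring
      have e4 : B.w c * (q - A.b (r c) * H γ (B.φ c)) =
          B.w c * q - (A.b (r c) * B.w c) * H γ (B.φ c) := by ring
      rw [e4, e3]
      have : B.w c * q < A.w (r c) * q := mul_lt_mul_of_pos_right hwlt_c hq
      linarith
    have : 0 < f1 c := by
      refine pos_of_left hf1c.continuousAt (hleft.mono fun t ht => ht.2.1) ?_
      filter_upwards [hleft, (hρc.eventually (lt_mem_nhds hρ1)).filter_mono nhdsWithin_le_nhds]
        with t ht ht2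
      obtain ⟨⟨htm, htc⟩, -⟩ := ht
      exact ⟨_, by linarith, (hmatch t htm htc).sub (hasDerivAt_id t)⟩
    linarith
  have : 0 < min (f1 c) (min (f2 c) (f3 c)) := lt_min h1c (lt_min h2c h3c)
  have h9 : min (f1 c) (min (f2 c) (f3 c)) = 0 := hc0
  linarith

end Flow

end Pool.Agent.MP815fa1
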