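import Pool.Agent.Lib.MP_815fa1_an.ToFlow

/-! Counting zeros. -/

open Set Filter Topology Real

namespace Pool.Agent.MP815fa1

theorem zeros_inj {k a α β : ℝ} {u v u' v' : ℝ → ℝ} (hk : 0 < k) (ha : 0 < a) (hα : 0 < α)
    (hαβ : α < β) (hA : Sol k a α u v) (hB : Sol k a β u' v') :
    ∃ f : ℝ → ℝ, (∀ r ∈ {r : ℝ | 0 < r ∧ u r = 0}, 0 < f r ∧ f r ≤ r ∧ u' (f r) = 0) ∧
      InjOn f {r : ℝ | 0 < r ∧ u r = 0} := by
  have hβ : 0 < β := hα.trans hαβ
  have hq : 0 < √(a + 1) := sqrt_pos.2 (by linarith)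
  have hγ0 : 0 < a / (a + 1) := by positivity
  have hγ1 : a / (a + 1) < 1 := by rw [div_lt_one (by linarith)]; linarith
  set A := hA.toFlow hα ha hk with hAd
  set B := hB.toFlow hβ ha hk with hBd
  have h0 : B.w 0 < A.w 0 := by
    change wt a β u' v' 0 < wt a α u v 0
    rw [wt, wt, if_pos le_rfl, if_pos le_rfl, rpow_neg hα.le, rpow_neg hβ.le]
    exact inv_strictAnti₀ (rpow_pos_of_pos hα a) (rpow_lt_rpow hα.le hαβ ha)
  have hcA : ∀ t, 0 < t → (cos (A.φ t) = 0 ↔ u t = 0) := fun t ht =>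
    hA.cos_ang_eq_zero_iff hα ha hk ht
  have hcB : ∀ t, 0 < t → (cos (B.φ t) = 0 ↔ u' t = 0) := fun t ht =>
    hB.cos_ang_eq_zero_iff hβ ha hk ht
  have hpos : ∀ T ∈ {r : ℝ | 0 < r ∧ u r = 0}, ∀ t ∈ Ioc 0 T, 0 < A.Φ t := by
    intro T hT
    exact A.Φ_pos_of_cos hk hq hγ0 hγ1 ((hcA T hT.1).2 hT.2)
  have hex : ∀ T : ℝ, ∃ t : ℝ, T ∈ {r : ℝ | 0 < r ∧ u r = 0} → (t ∈ Ioc 0 T ∧ B.φ t = A.φ T) := by
    intro T
    by_cases hT : T ∈ {r : ℝ | 0 < r ∧ u r = 0}
    · obtain ⟨t, ht, he⟩ := A.compare B hk hq hγ0 hγ1 h0 hT.1 (hpos T hT)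
      exact ⟨t, fun _ => ⟨ht, he⟩⟩
    · exact ⟨0, fun h => absurd h hT⟩
  choose f hf using hex
  have hinjφ : ∀ T ∈ {r : ℝ | 0 < r ∧ u r = 0}, ∀ T' ∈ {r : ℝ | 0 < r ∧ u r = 0},
      T < T' → A.φ T < A.φ T' := by
    intro T _ T' hT' hlt
    exact A.strictMono_Iic hk hq (fun x hx => hpos T' hT' x ⟨hx.1, hx.2.le⟩)
      (mem_Iic.2 hlt.le) (mem_Iic.2 le_rfl) hlt
  refine ⟨f, ?_, ?_⟩
  · intro T hT
    obtain ⟨ht, he⟩ := hf T hT
    refine ⟨ht.1, ht.2, (hcB _ ht.1).1 ?_⟩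
    rw [he]
    exact (hcA T hT.1).2 hT.2
  · intro T hT T' hT' he
    have h1 : A.φ T = A.φ T' := by rw [← (hf T hT).2, ← (hf T' hT').2, he]
    rcases lt_trichotomy T T' with h | h | h
    · exact absurd h1 (hinjφ T hT T' hT' h).ne
    · exact h
    · exact absurd h1 (hinjφ T' hT' T hT h).ne'

theorem zeros_le {k a α β : ℝ} {u v u' v' : ℝ → ℝ} (hk : 0 < k) (ha : 0 < a) (hα : 0 < α)
    (hαβ : α < β) (hA : Sol k a α u v) (hB : Sol k a β u' v') :
    {r : ℝ | 0 < r ∧ u r = 0}.encard ≤ {r : ℝ | 0 < r ∧ u' r = 0}.encard ∧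
    ∀ T : ℝ, {r : ℝ | (0 < r ∧ u r = 0) ∧ r ≤ T}.encard ≤
      {r : ℝ | (0 < r ∧ u' r = 0) ∧ r ≤ T}.encard := by
  obtain ⟨f, hf, hinj⟩ := zeros_inj hk ha hα hαβ hA hB
  constructor
  · exact Set.encard_le_encard_of_injOn (f := f) (fun r hr => ⟨(hf r hr).1, (hf r hr).2.2⟩) hinj
  · intro T
    refine Set.encard_le_encard_of_injOn (f := f) ?_ (hinj.mono fun r hr => hr.1)
    intro r hr
    have h := hf r hr.1
    exact ⟨⟨h.1, h.2.2⟩, h.2.1.trans hr.2⟩

/-- A `C^1`-up-to-the-origin radial solution gives the abstract solution data. -/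
theorem sol_of_radial {n : ℕ} (hn : 2 ≤ n) {p α : ℝ} (hp : 1 < p) (hα : 0 < α) {u : ℝ → ℝ}
    (h0 : u 0 = α) (h1 : HasDerivWithinAt u 0 (Set.Ici 0) 0)
    (h2 : ∀ r : ℝ, 0 < r → DifferentiableAt ℝ u r ∧ HasDerivAt (deriv u)
        (-(((n : ℝ) - 1) * (cosh r / sinh r) * deriv u r) - |u r| ^ (p - 1) * u r) r) :
    Sol ((n : ℝ) - 1) ((p - 1) / 2) α u (deriv u) := by
  obtain ⟨i, rfl⟩ : ∃ i, n = i + 2 := ⟨n - 2, by omega⟩
  have hcast : (((i + 2 : ℕ) : ℝ) - 1) = i + 1 := by push_cast; ring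
  have hp2 : 2 * ((p - 1) / 2) = p - 1 := by ring
  simp only [hcast] at h2 ⊢
  have hcont : Tendsto u (𝓝[>] 0) (𝓝 α) := by
    have := h1.continuousWithinAt.tendsto
    rw [h0] at this
    exact this.mono_left (nhdsWithin_mono _ Ioi_subset_Ici_self)
  set f : ℝ → ℝ := fun r => |u r| ^ (p - 1) * u r with hf
  have hflim : Tendsto f (𝓝[>] 0) (𝓝 (α ^ p)) := by
    have h := ((hcont.abs).rpow_const (p := p - 1) (Or.inr (by linarith))).mul hcont
    rw [abs_of_pos hα, ← rpow_add_one hα.ne', sub_add_cancel] at h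
    exact h
  -- m = sinh^(i+1) u'
  set m : ℝ → ℝ := fun r => sinh r ^ (i + 1) * deriv u r with hm
  have hmd : ∀ r, 0 < r → HasDerivAt m (-(sinh r ^ (i + 1) * f r)) r := by
    intro r hr
    have hs := (sinh_pos_iff.2 hr).ne'
    have h3 := ((hasDerivAt_sinh r).fun_pow (i + 1)).mul (h2 r hr).2
    refine h3.congr_deriv ?_
    simp only [hf]
    rw [show i + 1 - 1 = i by omega]
    push_cast
    field_simp
    ring
  have hmlim : Tendsto m (𝓝[>] 0) (𝓝 0) := by
    -- bound near zero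
    set C := α ^ p + 1 with hC
    have hCp : 0 < C := by
      have := rpow_pos_of_pos hα p
      linarith
    have hb : ∀ᶠ r in 𝓝[>] (0 : ℝ), |f r| ≤ C ∧ sinh r ≤ 1 := by
      have h3 : ∀ᶠ r in 𝓝[>] (0 : ℝ), |f r| ≤ C := by
        have h4 := hflim.abs
        rw [abs_of_pos (rpow_pos_of_pos hα p)] at h4
        exact h4.eventually (ge_mem_nhds (by linarith))
      have h5 : ∀ᶠ r in 𝓝[>] (0 : ℝ), sinh r ≤ 1 :=
        Sol.tendsto_sinh.eventually (ge_mem_nhds (by norm_num))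
      exact h3.and h5
    obtain ⟨δ, hδ, hδb⟩ := (mem_nhdsGT_iff_exists_Ioo_subset' (show (0 : ℝ) < 1 by norm_num)).1 hb
    have hδ0 : 0 < δ := hδ
    have hmb : ∀ r ∈ Ioo 0 δ, |m r| ≤ C * r := by
      intro r hr
      refine le_of_forall_pos_le_add (fun η hη => ?_)
      -- slope is small somewhere
      have hslope : ∀ᶠ x in 𝓝[>] (0 : ℝ), |(u x - u 0) / x| < η := by
        have h3 : Tendsto (slope u 0) (𝓝[>] 0) (𝓝 0) := by
          have := hasDerivWithinAt_iff_tendsto_slope.1 h1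
          refine this.mono_left (nhdsWithin_mono _ ?_)
          intro x hx
          have hx' : 0 < x := hx
          exact ⟨hx'.le, hx'.ne'⟩
        have h4 := h3.abs
        rw [abs_zero] at h4
        filter_upwards [h4.eventually (gt_mem_nhds hη)] with x hx
        rwa [slope_def_field, sub_zero] at hx
      obtain ⟨x, hx1, hx2⟩ := (hslope.and (Ioo_mem_nhdsGT hr.1)).exists
      obtain ⟨ξ, hξ, hξe⟩ := exists_deriv_eq_slope u hx2.1
        (by
          intro y hy
          rcases eq_or_lt_of_le hy.1 with h | h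
          · rw [← h]
            exact h1.continuousWithinAt.mono (fun z hz => hz.1)
          · exact (h2 y h).1.continuousAt.continuousWithinAt)
        (fun y hy => (h2 y hy.1).1.differentiableWithinAt)
      rw [sub_zero] at hξe
      have hξr : ξ < r := hξ.2.trans hx2.2
      have hmξ : |m ξ| ≤ η := by
        simp only [hm]
        have hs1 : 0 ≤ sinh ξ := (sinh_pos_iff.2 hξ.1).le
        have hs2 : sinh ξ ≤ 1 := (hδb ⟨hξ.1, hξr.trans hr.2⟩).2
        have hs3 : sinh ξ ^ (i + 1) ≤ 1 := pow_le_one₀ hs1 hs2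
        have hs4 : 0 ≤ sinh ξ ^ (i + 1) := pow_nonneg hs1 _
        rw [abs_mul, abs_of_nonneg hs4, hξe]
        calc sinh ξ ^ (i + 1) * |(u x - u 0) / x| ≤ 1 * |(u x - u 0) / x| :=
              mul_le_mul_of_nonneg_right hs3 (abs_nonneg _)
          _ ≤ η := by rw [one_mul]; exact hx1.le
      have hmc : ContinuousOn m (Icc ξ r) := fun y hy =>
        (hmd y (hξ.1.trans_le hy.1)).continuousAt.continuousWithinAt
      have hfb : ∀ y ∈ Ioo ξ r, |sinh y ^ (i + 1) * f y| ≤ C := by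
        intro y hy
        have hy' : y ∈ Ioo 0 δ := ⟨hξ.1.trans hy.1, hy.2.trans hr.2⟩
        have hs1 : 0 ≤ sinh y := (sinh_pos_iff.2 hy'.1).le
        have hs3 : sinh y ^ (i + 1) ≤ 1 := pow_le_one₀ hs1 (hδb hy').2
        have hs4 : 0 ≤ sinh y ^ (i + 1) := pow_nonneg hs1 _
        rw [abs_mul, abs_of_nonneg hs4]
        calc sinh y ^ (i + 1) * |f y| ≤ 1 * C :=
              mul_le_mul hs3 (hδb hy').1 (abs_nonneg _) zero_le_one
          _ = C := one_mul C
      have hup : MonotoneOn (fun y => m y + C * y) (Icc ξ r) := by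
        refine mono_Icc (hmc.add (continuous_const.mul continuous_id).continuousOn) ?_
        intro y hy
        have hy0 := hξ.1.trans hy.1
        refine ⟨_, ?_, (hmd y hy0).add ((hasDerivAt_id y).const_mul C)⟩
        have := (abs_le.1 (hfb y hy)).2
        linarith
      have hdn : AntitoneOn (fun y => m y - C * y) (Icc ξ r) := by
        refine anti_Icc (hmc.sub (continuous_const.mul continuous_id).continuousOn) ?_
        intro y hy
        have hy0 := hξ.1.trans hy.1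
        refine ⟨_, ?_, (hmd y hy0).sub ((hasDerivAt_id y).const_mul C)⟩
        have := (abs_le.1 (hfb y hy)).1
        linarith
      have e1 := hup ⟨le_rfl, hξr.le⟩ ⟨hξr.le, le_rfl⟩ hξr.le
      have e2 := hdn ⟨le_rfl, hξr.le⟩ ⟨hξr.le, le_rfl⟩ hξr.le
      simp only at e1 e2
      have e3 := abs_le.1 hmξ
      have e4 : 0 < C * ξ := mul_pos hCp hξ.1
      rw [abs_le]
      constructor <;> linarith [e3.1, e3.2]
    have hz : Tendsto (fun r : ℝ => C * r) (𝓝[>] 0) (𝓝 0) := by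
      have : Tendsto (fun r : ℝ => C * r) (𝓝 0) (𝓝 (C * 0)) := tendsto_id.const_mul C
      rw [mul_zero] at this
      exact this.mono_left nhdsWithin_le_nhds
    refine squeeze_zero_norm' ?_ hz
    filter_upwards [Ioo_mem_nhdsGT hδ0] with r hr
    exact hmb r hr
  refine ⟨fun r hr => (h2 r hr).1.hasDerivAt, ?_, hcont, ?_⟩
  · intro r hr
    rw [hp2]
    exact (h2 r hr).2
  · -- L'Hopital
    have hL : Tendsto (fun x => m x / sinh x ^ (i + 2)) (𝓝[>] 0)
        (𝓝 (-(α ^ p / (i + 1 + 1)))) := by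
      refine HasDerivAt.lhopital_zero_nhdsGT (f' := fun r => -(sinh r ^ (i + 1) * f r))
        (g' := fun r => ((i + 2 : ℕ) : ℝ) * sinh r ^ (i + 1) * cosh r) ?_ ?_ ?_ hmlim ?_ ?_
      · filter_upwards [self_mem_nhdsWithin] with r hr using hmd r hr
      · filter_upwards [self_mem_nhdsWithin] with r hr
        exact ((hasDerivAt_sinh r).fun_pow (i + 2))
      · filter_upwards [self_mem_nhdsWithin] with r hr
        have := sinh_pos_iff.2 hr
        have := cosh_pos r
        positivity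
      · have := Sol.tendsto_sinh.pow (i + 2)
        rwa [zero_pow (by omega)] at this
      · have h3 := (hflim.div (Sol.tendsto_cosh.const_mul ((i : ℝ) + 1 + 1))
          (by positivity)).neg
        rw [mul_one] at h3
        refine h3.congr' ?_
        filter_upwards [self_mem_nhdsWithin] with r hr
        have := (sinh_pos_iff.2 hr).ne'
        have := (cosh_pos r).ne'
        simp only [Pi.div_apply]
        push_cast
        field_simp
        ring
    have hexp : 2 * ((p - 1) / 2) + 1 = p := by ring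
    rw [hexp]
    refine hL.congr' ?_
    filter_upwards [self_mem_nhdsWithin] with r hr
    have := (sinh_pos_iff.2 hr).ne'
    simp only [hm]
    field_simp
    ring

end Pool.Agent.MP815fa1
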