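import Pool.Agent.Lib.MP_815fa1_an.Calc

/-! The angle / energy system behind radial Emden–Fowler solutions on hyperbolic space:
abstract form. -/

open Set Filter Topology Real

namespace Pool.Agent.MP815fa1

noncomputable def G (γ θ : ℝ) : ℝ := |cos θ| ^ γ

noncomputable def H (γ θ : ℝ) : ℝ := |cos θ| ^ (-γ) * cos θ * sin θ

lemma continuous_abs_rpow_mul {γ : ℝ} (h1 : γ < 1) :
    Continuous (fun x : ℝ => |x| ^ (-γ) * x) := by
  have h : (fun x : ℝ => |x| ^ (-γ) * x) =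
      fun x => (max x 0) ^ (1 - γ) - (max (-x) 0) ^ (1 - γ) := by
    funext x
    rcases lt_trichotomy x 0 with hx | hx | hx
    · rw [max_eq_right hx.le, max_eq_left (by linarith), zero_rpow (by linarith), abs_of_neg hx,
        show (1 - γ) = -γ + 1 by ring, rpow_add (by linarith), rpow_one]
      ring
    · subst hx
      simp
    · rw [max_eq_left hx.le, max_eq_right (by linarith), zero_rpow (by linarith), abs_of_pos hx,
        show (1 - γ) = -γ + 1 by ring, rpow_add (by linarith), rpow_one]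
      ring
  rw [h]
  refine Continuous.sub ?_ ?_
  · exact (continuous_id.max continuous_const).rpow_const (fun x => Or.inr (by linarith))
  · exact (continuous_neg.max continuous_const).rpow_const (fun x => Or.inr (by linarith))

lemma continuous_H {γ : ℝ} (h1 : γ < 1) : Continuous (H γ) :=
  ((continuous_abs_rpow_mul h1).comp continuous_cos).mul continuous_sin

lemma continuous_G {γ : ℝ} (h0 : 0 < γ) : Continuous (G γ) :=
  (continuous_cos.abs).rpow_const (fun x => Or.inr h0.le)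

lemma G_nonneg (γ θ : ℝ) : 0 ≤ G γ θ := rpow_nonneg (abs_nonneg _) _

lemma G_pos {γ θ : ℝ} (h : cos θ ≠ 0) : 0 < G γ θ := rpow_pos_of_pos (abs_pos.2 h) _

lemma H_of_cos {γ θ : ℝ} (h : cos θ = 0) : H γ θ = 0 := by simp [H, h]

lemma H_of_sin {γ θ : ℝ} (h : sin θ = 0) : H γ θ = 0 := by simp [H, h]

lemma G_of_sin {γ θ : ℝ} (h : sin θ = 0) : G γ θ = 1 := by
  have : |cos θ| = 1 := by
    have := sin_sq_add_cos_sq θ
    rw [h] at this
    have h2 : cos θ ^ 2 = 1 := by linarith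
    rw [← sq_abs] at h2
    nlinarith [abs_nonneg (cos θ)]
  rw [G, this, one_rpow]

lemma H_pos_iff {γ θ : ℝ} : 0 < H γ θ ↔ 0 < cos θ * sin θ := by
  by_cases h : cos θ = 0
  · simp [H, h]
  · have h1 : 0 < |cos θ| ^ (-γ) := rpow_pos_of_pos (abs_pos.2 h) _
    rw [H, mul_assoc]
    exact mul_pos_iff_of_pos_left h1

lemma coth_pos {t : ℝ} (ht : 0 < t) : 0 < cosh t / sinh t :=
  div_pos (cosh_pos t) (sinh_pos_iff.2 ht)

lemma coth_lt {x y : ℝ} (hx : 0 < x) (hxy : x < y) : cosh y / sinh y < cosh x / sinh x := by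
  rw [div_lt_div_iff₀ (sinh_pos_iff.2 (hx.trans hxy)) (sinh_pos_iff.2 hx)]
  have : 0 < sinh (y - x) := sinh_pos_iff.2 (by linarith)
  rw [sinh_sub] at this
  linarith

lemma exists_sector {θ : ℝ} (h : 0 < cos θ * sin θ) :
    ∃ L, L < θ ∧ sin L = 0 ∧ ∀ x ∈ Ioc L θ, 0 < cos x * sin x := by
  set j := ⌊θ / π⌋ with hj
  have hpi := pi_pos
  have h1 : (j : ℝ) * π ≤ θ := by
    have := Int.floor_le (θ / π)
    rwa [← hj, le_div_iff₀ hpi] at this
  have h2 : θ < (j : ℝ) * π + π := by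
    have := Int.lt_floor_add_one (θ / π)
    rw [← hj, div_lt_iff₀ hpi] at this
    linarith
  have hprod : ∀ x, cos (x - j * π) * sin (x - j * π) = cos x * sin x := by
    intro x
    rw [cos_sub_int_mul_pi, sin_sub_int_mul_pi]
    have : ((-1 : ℝ) ^ j) * ((-1 : ℝ) ^ j) = 1 := by
      rw [← mul_zpow]; simp
    calc (-1 : ℝ) ^ j * cos x * ((-1) ^ j * sin x)
        = ((-1 : ℝ) ^ j * (-1) ^ j) * (cos x * sin x) := by ring
      _ = _ := by rw [this, one_mul]
  have h3 : 0 < cos (θ - j * π) * sin (θ - j * π) := by rw [hprod]; exact h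
  have h4 : 0 ≤ sin (θ - j * π) := sin_nonneg_of_nonneg_of_le_pi (by linarith) (by linarith)
  have h5 : 0 < sin (θ - j * π) := lt_of_le_of_ne h4 (by
    intro h0; rw [← h0] at h3; simp at h3)
  have h6 : 0 < cos (θ - j * π) := by
    by_contra hc
    push Not at hc
    nlinarith
  have h7 : θ - j * π < π / 2 := by
    by_contra hc
    push Not at hc
    have := cos_nonpos_of_pi_div_two_le_of_le hc (by linarith)
    linarith
  have h8 : 0 < θ - j * π := by
    rcases lt_or_eq_of_le (sub_nonneg.2 h1) with h | h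
    · exact h
    · rw [← h] at h5; simp at h5
  refine ⟨j * π, by linarith, sin_int_mul_pi j, ?_⟩
  intro x hx
  rw [← hprod]
  exact mul_pos (cos_pos_of_mem_Ioo ⟨by linarith [hx.1], by linarith [hx.2]⟩)
    (sin_pos_of_pos_of_lt_pi (by linarith [hx.1]) (by linarith [hx.2]))

structure Flow (k q γ : ℝ) where
  φ : ℝ → ℝ
  w : ℝ → ℝ
  m : ℝ
  m_pos : 0 < m
  φ_cont : Continuous φ
  w_cont : Continuous w
  w_pos : ∀ t, 0 < w t
  φ_neg : ∀ t ≤ 0, φ t = m * t
  dφ : ∀ t, 0 < t → HasDerivAt φ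
    (G γ (φ t) * (q - k * (cosh t / sinh t) * w t * H γ (φ t)) / w t) t
  dw : ∀ t, 0 < t → HasDerivAt w (γ * (k * (cosh t / sinh t) * w t) * sin (φ t) ^ 2) t
  lim : Tendsto (fun t => q - k * (cosh t / sinh t) * w t * H γ (φ t)) (𝓝[>] 0)
    (𝓝 (q / (k + 1)))
  iso : ∀ t, 0 < t → ∀ᶠ s in 𝓝[≠] t, cos (φ s) ≠ 0
  crit1 : ∀ t, 0 < t → q - k * (cosh t / sinh t) * w t * H γ (φ t) = 0 →
    (∀ᶠ s in 𝓝[<] t, 0 < q - k * (cosh s / sinh s) * w s * H γ (φ s)) →
    1 < k * γ * sin (φ t) ^ 2 * cosh t ^ 2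
  crit2 : ∀ t, 0 < t → q - k * (cosh t / sinh t) * w t * H γ (φ t) = 0 →
    1 < k * γ * sin (φ t) ^ 2 * cosh t ^ 2 →
    ∀ᶠ s in 𝓝[>] t, q - k * (cosh s / sinh s) * w s * H γ (φ s) < 0

namespace Flow

variable {k q γ : ℝ}

noncomputable def b (A : Flow k q γ) (t : ℝ) : ℝ := k * (cosh t / sinh t) * A.w t

noncomputable def Φ (A : Flow k q γ) (t : ℝ) : ℝ := q - A.b t * H γ (A.φ t)

noncomputable def db (A : Flow k q γ) (t : ℝ) : ℝ :=
  (γ * sin (A.φ t) ^ 2 * A.b t ^ 2 - (A.b t ^ 2 - k ^ 2 * A.w t ^ 2) / k) / A.w t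

lemma b_pos (A : Flow k q γ) (hk : 0 < k) {t : ℝ} (ht : 0 < t) : 0 < A.b t :=
  mul_pos (mul_pos hk (coth_pos ht)) (A.w_pos t)

lemma hasDerivAt_φ (A : Flow k q γ) {t : ℝ} (ht : 0 < t) :
    HasDerivAt A.φ (G γ (A.φ t) * A.Φ t / A.w t) t := A.dφ t ht

lemma hasDerivAt_w (A : Flow k q γ) {t : ℝ} (ht : 0 < t) :
    HasDerivAt A.w (γ * A.b t * sin (A.φ t) ^ 2) t := A.dw t ht

lemma hasDerivAt_b (A : Flow k q γ) (hk : 0 < k) {t : ℝ} (ht : 0 < t) :
    HasDerivAt A.b (A.db t) t := by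
  have hs : sinh t ≠ 0 := (sinh_pos_iff.2 ht).ne'
  have h1 : HasDerivAt (fun t => cosh t / sinh t)
      ((sinh t * sinh t - cosh t * cosh t) / sinh t ^ 2) t :=
    (hasDerivAt_cosh t).div (hasDerivAt_sinh t) hs
  have h2 := (h1.const_mul k).mul (A.hasDerivAt_w ht)
  refine h2.congr_deriv ?_
  have hw := (A.w_pos t).ne'
  have hcs : cosh t ^ 2 = sinh t ^ 2 + 1 := by
    have := cosh_sq t; linarith
  simp only [db, b]
  field_simp
  ring_nf
  

lemma db_eq (A : Flow k q γ) (hk : 0 < k) {t : ℝ} (ht : 0 < t) :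
    A.db t * A.w t = A.w t ^ 2 * k / sinh t ^ 2 * (k * γ * sin (A.φ t) ^ 2 * cosh t ^ 2 - 1) := by
  have hs : sinh t ≠ 0 := (sinh_pos_iff.2 ht).ne'
  have hw := (A.w_pos t).ne'
  have hcs : cosh t ^ 2 = sinh t ^ 2 + 1 := by
    have := cosh_sq t; linarith
  simp only [db, b]
  field_simp
  rw [hcs]
  ring

end Flow

end Pool.Agent.MP815fa1
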