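import Pool.Agent.Lib.MP_815fa1_an.Flow

/-! Basic facts on flows; the no-return lemma. -/

open Set Filter Topology Real

namespace Pool.Agent.MP815fa1

namespace Flow

variable {k q γ : ℝ}

lemma φ_zero (A : Flow k q γ) : A.φ 0 = 0 := by rw [A.φ_neg 0 le_rfl, mul_zero]

lemma lim' (A : Flow k q γ) : Tendsto A.Φ (𝓝[>] 0) (𝓝 (q / (k + 1))) := A.lim

lemma crit1' (A : Flow k q γ) {t : ℝ} (ht : 0 < t) (h : A.Φ t = 0)
    (h2 : ∀ᶠ s in 𝓝[<] t, 0 < A.Φ s) : 1 < k * γ * sin (A.φ t) ^ 2 * cosh t ^ 2 :=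
  A.crit1 t ht h h2

lemma crit2' (A : Flow k q γ) {t : ℝ} (ht : 0 < t) (h : A.Φ t = 0)
    (h2 : 1 < k * γ * sin (A.φ t) ^ 2 * cosh t ^ 2) : ∀ᶠ s in 𝓝[>] t, A.Φ s < 0 :=
  A.crit2 t ht h h2

lemma continuousAt_b (A : Flow k q γ) (hk : 0 < k) {t : ℝ} (ht : 0 < t) :
    ContinuousAt A.b t := (A.hasDerivAt_b hk ht).continuousAt

lemma continuousAt_Φ (A : Flow k q γ) (hk : 0 < k) (h1 : γ < 1) {t : ℝ} (ht : 0 < t) :
    ContinuousAt A.Φ t :=
  continuousAt_const.sub ((A.continuousAt_b hk ht).mul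
    (((continuous_H h1).comp A.φ_cont).continuousAt))

lemma continuousAt_db (A : Flow k q γ) (hk : 0 < k) {t : ℝ} (ht : 0 < t) :
    ContinuousAt A.db t := by
  have hb := A.continuousAt_b hk ht
  have hw := A.w_cont.continuousAt (x := t)
  have hs : ContinuousAt (fun t => sin (A.φ t)) t :=
    (continuous_sin.comp A.φ_cont).continuousAt
  exact (((continuousAt_const.mul (hs.pow 2)).mul (hb.pow 2)).sub
    (((hb.pow 2).sub (continuousAt_const.mul (hw.pow 2))).div_const k)).div hw (A.w_pos t).ne'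

lemma Φ_of_sin (A : Flow k q γ) {t : ℝ} (h : sin (A.φ t) = 0) : A.Φ t = q := by
  rw [Φ, H_of_sin h]; ring

lemma Φ_of_cos (A : Flow k q γ) {t : ℝ} (h : cos (A.φ t) = 0) : A.Φ t = q := by
  rw [Φ, H_of_cos h]; ring

lemma strictMono_Icc' (A : Flow k q γ) {s t : ℝ} (hs : 0 ≤ s)
    (hΦ : ∀ x ∈ Ioo s t, 0 < A.Φ x) : StrictMonoOn A.φ (Icc s t) := by
  refine strictMono_Icc A.φ_cont.continuousOn ?_ ?_
  · intro x hx
    exact ⟨_, div_nonneg (mul_nonneg (G_nonneg _ _) (hΦ x hx).le) (A.w_pos x).le,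
      A.hasDerivAt_φ (hs.trans_lt hx.1)⟩
  · intro x hx
    have h0 : 0 < x := hs.trans_lt hx.1
    filter_upwards [A.iso x h0, mem_nhdsWithin_of_mem_nhds (Ioo_mem_nhds hx.1 hx.2)] with y hy hy2
    exact ⟨_, div_pos (mul_pos (G_pos hy) (hΦ y hy2)) (A.w_pos y),
      A.hasDerivAt_φ (hs.trans_lt hy2.1)⟩

lemma exists_Φ_pos (A : Flow k q γ) (hk : 0 < k) (hq : 0 < q) :
    ∃ ε > 0, ∀ x ∈ Ioo 0 ε, 0 < A.Φ x := by
  have h := A.lim'.eventually (lt_mem_nhds (show 0 < q / (k + 1) by positivity))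
  obtain ⟨e, he, hlc⟩ := (mem_nhdsGT_iff_exists_Ioo_subset' (show (0 : ℝ) < 1 by norm_num)).1 h
  exact ⟨e, he, fun x hx => hlc hx⟩

lemma deriv_pos_of_sin (A : Flow k q γ) (hq : 0 < q) {t : ℝ} (ht : 0 < t)
    (h : sin (A.φ t) = 0) : ∃ d, 0 < d ∧ HasDerivAt A.φ d t := by
  refine ⟨_, ?_, A.hasDerivAt_φ ht⟩
  rw [A.Φ_of_sin h, G_of_sin h, one_mul]
  exact div_pos hq (A.w_pos t)

lemma φ_pos (A : Flow k q γ) (hk : 0 < k) (hq : 0 < q) {t : ℝ} (ht : 0 < t) : 0 < A.φ t := by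
  obtain ⟨e, he, hΦ⟩ := A.exists_Φ_pos hk hq
  have hm : StrictMonoOn A.φ (Icc 0 e) := A.strictMono_Icc' le_rfl hΦ
  have hsmall : ∀ x ∈ Ioc 0 e, 0 < A.φ x := by
    intro x hx
    have := hm ⟨le_rfl, he.le⟩ ⟨hx.1.le, hx.2⟩ hx.1
    rwa [A.φ_zero] at this
  by_contra hcon
  push Not at hcon
  have het : e < t := by
    by_contra h
    push Not at h
    exact absurd (hsmall t ⟨ht, h⟩) (not_lt.2 hcon)
  obtain ⟨c, hc, h0, h1⟩ := first_nonpos het.le A.φ_cont.continuousOn (hsmall e ⟨he, le_rfl⟩) hcon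
  have hc0 : 0 < c := he.trans hc.1
  obtain ⟨d, hd, hd'⟩ := A.deriv_pos_of_sin hq hc0 (by rw [h0, sin_zero])
  obtain ⟨x, hx1, hx2⟩ := ((eventually_left_lt hd' hd).and (Ioo_mem_nhdsLT hc.1)).exists
  have := h1 x ⟨hx2.1.le, hx2.2⟩
  rw [h0] at hx1
  linarith

lemma strictMono_Iic (A : Flow k q γ) (hk : 0 < k) (hq : 0 < q) {T : ℝ}
    (hΦ : ∀ x ∈ Ioo 0 T, 0 < A.Φ x) : StrictMonoOn A.φ (Iic T) := by
  have hm := A.strictMono_Icc' le_rfl hΦ
  intro x hx y hy hxy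
  rcases le_or_gt y 0 with h | h
  · rw [A.φ_neg y h, A.φ_neg x (hxy.le.trans h)]
    exact mul_lt_mul_of_pos_left hxy A.m_pos
  · rcases le_or_gt x 0 with h' | h'
    · have h1 := A.φ_pos hk hq h
      have h2 : A.φ x ≤ 0 := by
        rw [A.φ_neg x h']
        exact mul_nonpos_of_nonneg_of_nonpos A.m_pos.le h'
      linarith
    · exact hm ⟨h'.le, hx⟩ ⟨h.le, hy⟩ hxy

lemma tendsto_atBot (A : Flow k q γ) : Tendsto A.φ atBot atBot := by
  have h1 : Tendsto (fun t : ℝ => A.m * t) atBot atBot :=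
    tendsto_id.const_mul_atBot A.m_pos
  refine h1.congr' ?_
  filter_upwards [eventually_le_atBot 0] with t ht
  rw [A.φ_neg t ht]

/-- Inverse of the angle function on the range where it is increasing. -/
lemma exists_inv (A : Flow k q γ) (hk : 0 < k) (hq : 0 < q) {T : ℝ}
    (hΦ : ∀ x ∈ Ioo 0 T, 0 < A.Φ x) :
    ∃ g : ℝ → ℝ, Continuous g ∧ StrictMono g ∧ (∀ t ≤ T, g (A.φ t) = t) ∧
      (∀ y ≤ A.φ T, g y ≤ T ∧ A.φ (g y) = y) :=
  exists_inverse A.φ_cont (A.strictMono_Iic hk hq hΦ) A.tendsto_atBot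

/-- Derivative of the matched time. -/
lemma hasDerivAt_match (A B : Flow k q γ) {T : ℝ} {g : ℝ → ℝ} (hg : Continuous g)
    (hg2 : ∀ y ≤ A.φ T, g y ≤ T ∧ A.φ (g y) = y) {t : ℝ} (ht : 0 < t)
    (h1 : B.φ t < A.φ T) (h2 : 0 < g (B.φ t)) (h3 : A.Φ (g (B.φ t)) ≠ 0)
    (h4 : cos (B.φ t) ≠ 0) :
    HasDerivAt (fun s => g (B.φ s))
      (A.w (g (B.φ t)) / B.w t * (B.Φ t / A.Φ (g (B.φ t)))) t := by
  have hA := A.hasDerivAt_φ h2
  have hAeq : A.φ (g (B.φ t)) = B.φ t := (hg2 _ h1.le).2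
  have hG : G γ (B.φ t) ≠ 0 := (G_pos h4).ne'
  have hwA := (A.w_pos (g (B.φ t))).ne'
  have hwB := (B.w_pos t).ne'
  have hginv : HasDerivAt g (G γ (A.φ (g (B.φ t))) * A.Φ (g (B.φ t)) / A.w (g (B.φ t)))⁻¹
      (B.φ t) := by
    refine HasDerivAt.of_local_left_inverse hg.continuousAt hA ?_ ?_
    · rw [hAeq]
      exact div_ne_zero (mul_ne_zero hG h3) hwA
    · filter_upwards [Iio_mem_nhds h1] with y hy
      exact (hg2 y (le_of_lt hy)).2
  have hB := B.hasDerivAt_φ ht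
  refine (hginv.comp t hB).congr_deriv ?_
  rw [hAeq]
  field_simp

/-- No-return lemma: if the angle takes a value with `cos = 0` at time `T`, then `Φ > 0`
on `(0, T]`. -/
theorem Φ_pos_of_cos (A : Flow k q γ) (hk : 0 < k) (hq : 0 < q) (hγ0 : 0 < γ) (hγ : γ < 1)
    {T : ℝ} (hcos : cos (A.φ T) = 0) :
    ∀ t ∈ Ioc 0 T, 0 < A.Φ t := by
  by_contra hcon
  push Not at hcon
  obtain ⟨t, ht, hΦt⟩ := hcon
  obtain ⟨e, he, hΦe⟩ := A.exists_Φ_pos hk hq
  have het : e / 2 ≤ t := by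
    by_contra h
    push Not at h
    exact absurd (hΦe t ⟨ht.1, by linarith⟩) (not_lt.2 hΦt)
  have he2 : 0 < e / 2 := by positivity
  obtain ⟨r0, hr0, hΦ0, hΦpos'⟩ := first_nonpos het
    (fun x hx => (A.continuousAt_Φ hk hγ (he2.trans_le hx.1)).continuousWithinAt)
    (hΦe _ ⟨he2, by linarith⟩) hΦt
  have hr0p : 0 < r0 := he2.trans hr0.1
  have hΦpos : ∀ x ∈ Ioo 0 r0, 0 < A.Φ x := by
    intro x hx
    rcases lt_or_ge x (e / 2) with h | h
    · exact hΦe x ⟨hx.1, by linarith⟩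
    · exact hΦpos' x ⟨h, hx.2⟩
  have hΦT : A.Φ T = q := A.Φ_of_cos hcos
  have hr0T : r0 < T := by
    rcases lt_or_eq_of_le (hr0.2.trans ht.2) with h | h
    · exact h
    · rw [← h, hΦ0] at hΦT; exact absurd hΦT hq.ne
  set θ := A.φ r0 with hθ
  have hbH : A.b r0 * H γ θ = q := by
    have := hΦ0
    rw [Φ] at this
    linarith
  have hHpos : 0 < H γ θ := by
    by_contra h
    push Not at h
    have := mul_nonpos_of_nonneg_of_nonpos (A.b_pos hk hr0p).le h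
    linarith
  have hcs := H_pos_iff.1 hHpos
  have hcosθ : cos θ ≠ 0 := by
    intro h; rw [h, zero_mul] at hcs; exact lt_irrefl _ hcs
  have hcrit : 1 < k * γ * sin θ ^ 2 * cosh r0 ^ 2 := by
    refine A.crit1' hr0p hΦ0 ?_
    filter_upwards [Ioo_mem_nhdsLT hr0p] with x hx
    exact hΦpos x hx
  obtain ⟨L, hLθ, hL, hsec⟩ := exists_sector hcs
  obtain ⟨g, hgc, hgm, hg1, hg2⟩ := A.exists_inv hk hq hΦpos
  -- Claim 1
  have hclaim1 : ∀ s, r0 ≤ s → L < A.φ s := by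
    intro s hs
    by_contra h
    push Not at h
    obtain ⟨c, hc, hc0, hc1⟩ := first_nonpos (f := fun x => A.φ x - L) hs
      (A.φ_cont.sub continuous_const).continuousOn (by linarith) (by linarith)
    have hcp : 0 < c := hr0p.trans hc.1
    have hcL : A.φ c = L := by linarith
    obtain ⟨d, hd, hd'⟩ := A.deriv_pos_of_sin hq hcp (by rw [hcL, hL])
    obtain ⟨x, hx1, hx2⟩ := ((eventually_left_lt hd' hd).and (Ioo_mem_nhdsLT hc.1)).exists
    have := hc1 x ⟨hx2.1.le, hx2.2⟩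
    linarith
  have hclaim2 : θ < A.φ T := by
    by_contra h
    push Not at h
    have := hsec (A.φ T) ⟨hclaim1 T hr0T.le, h⟩
    rw [hcos, zero_mul] at this
    exact lt_irrefl _ this
  obtain ⟨r2, hr2, hr2θ, hr2pos⟩ := last_nonpos (f := fun x => A.φ x - θ) hr0T.le
      (A.φ_cont.sub continuous_const).continuousOn (by simp [hθ]) (by linarith)
  have hr2θ' : A.φ r2 = θ := by linarith
  have hr2p : 0 < r2 := hr0p.trans_le hr2.1
  have hGθ : 0 < G γ θ := G_pos hcosθ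
  have hclaim3 : 0 ≤ A.Φ r2 := by
    by_contra h
    push Not at h
    have hd := A.hasDerivAt_φ hr2p
    have hneg : G γ (A.φ r2) * A.Φ r2 / A.w r2 < 0 := by
      rw [hr2θ']
      exact div_neg_of_neg_of_pos (mul_neg_of_pos_of_neg hGθ h) (A.w_pos _)
    obtain ⟨x, hx1, hx2⟩ := ((eventually_right_lt hd hneg).and (Ioo_mem_nhdsGT hr2.2)).exists
    have := hr2pos x ⟨hx2.1, hx2.2.le⟩
    linarith
  rcases eq_or_lt_of_le hclaim3 with hz | hp
  · -- Φ r2 = 0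
    have hcosh : cosh r0 ^ 2 ≤ cosh r2 ^ 2 := by
      have h1 : cosh r0 ≤ cosh r2 := by
        rw [cosh_le_cosh, abs_of_pos hr0p, abs_of_pos hr2p]; exact hr2.1
      have h2 := cosh_pos r0
      exact pow_le_pow_left₀ h2.le h1 2
    have hcr : 1 < k * γ * sin (A.φ r2) ^ 2 * cosh r2 ^ 2 := by
      rw [hr2θ']
      exact hcrit.trans_le (mul_le_mul_of_nonneg_left hcosh (by positivity))
    obtain ⟨u, hu, hΦu⟩ := (mem_nhdsGT_iff_exists_Ioo_subset' hr2.2).1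
      ((A.crit2' hr2p hz.symm hcr).and (Ioo_mem_nhdsGT hr2.2))
    have hu' : r2 < u := hu
    have hanti : AntitoneOn A.φ (Icc r2 u) := by
      refine anti_Icc A.φ_cont.continuousOn ?_
      intro x hx
      refine ⟨_, ?_, A.hasDerivAt_φ (hr2p.trans hx.1)⟩
      exact div_nonpos_of_nonpos_of_nonneg
        (mul_nonpos_of_nonneg_of_nonpos (G_nonneg _ _) (hΦu hx).1.le) (A.w_pos _).le
    set x := (r2 + u) / 2 with hx
    have hx1 : r2 < x := by rw [hx]; linarith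
    have hx2 : x < u := by rw [hx]; linarith
    have h1 := hanti ⟨le_rfl, hu'.le⟩ ⟨hx1.le, hx2.le⟩ hx1.le
    have h2 := hr2pos x ⟨hx1, (hΦu ⟨hx1, hx2⟩).2.2.le⟩
    linarith
  · -- Φ r2 > 0
    obtain ⟨r1, hr1, hΦr1, hΦr12⟩ := last_nonpos (f := A.Φ) hr2.1
      (fun x hx => (A.continuousAt_Φ hk hγ (hr0p.trans_le hx.1)).continuousWithinAt)
      hΦ0.le hp
    have hr1p : 0 < r1 := hr0p.trans_le hr1.1
    have hsm : StrictMonoOn A.φ (Icc r1 r2) :=
      A.strictMono_Icc' hr1p.le (fun x hx => hΦr12 x ⟨hx.1, hx.2.le⟩)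
    have hφlt : ∀ x ∈ Ico r1 r2, A.φ x < θ := by
      intro x hx
      have := hsm ⟨hx.1, hx.2.le⟩ ⟨hr1.2.le, le_rfl⟩ hx.2
      rwa [hr2θ'] at this
    have hφle : ∀ x ∈ Icc r1 r2, A.φ x ≤ θ := by
      intro x hx
      have := hsm.monotoneOn hx ⟨hr1.2.le, le_rfl⟩ hx.2
      rwa [hr2θ'] at this
    have hφL : ∀ x ∈ Icc r1 r2, L < A.φ x := fun x hx => hclaim1 x (hr1.1.trans hx.1)
    have he_pos : ∀ x ∈ Icc r1 r2, 0 < g (A.φ x) := by
      intro x hx
      by_contra h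
      push Not at h
      have h1 := (hg2 (A.φ x) (hφle x hx)).2
      have h2 := A.φ_pos hk hq (hr1p.trans_le hx.1)
      rw [A.φ_neg _ h] at h1
      have h3 := mul_nonpos_of_nonneg_of_nonpos A.m_pos.le h
      linarith
    have he_lt : ∀ x ∈ Ico r1 r2, g (A.φ x) < r0 := by
      intro x hx
      have h1 := hg2 (A.φ x) (hφlt x hx).le
      rcases lt_or_eq_of_le h1.1 with h | h
      · exact h
      · have h2 := h1.2
        rw [h] at h2
        have := hφlt x hx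
        linarith
    have hHx : ∀ x ∈ Icc r1 r2, 0 < H γ (A.φ x) := fun x hx =>
      H_pos_iff.2 (hsec _ ⟨hφL x hx, hφle x hx⟩)
    -- the difference
    have hδc : ContinuousOn (fun x => A.b x - A.b (g (A.φ x))) (Icc r1 r2) := by
      intro x hx
      refine ContinuousAt.continuousWithinAt ?_
      refine (A.continuousAt_b hk (hr1p.trans_le hx.1)).sub ?_
      have h1 : ContinuousAt (fun x => g (A.φ x)) x := (hgc.comp A.φ_cont).continuousAt
      exact ContinuousAt.comp (f := fun x => g (A.φ x)) (g := A.b)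
        (A.continuousAt_b hk (he_pos x hx)) h1
    have hr1m : r1 ∈ Ico r1 r2 := ⟨le_rfl, hr1.2⟩
    have hδ1 : 0 < A.b r1 - A.b (g (A.φ r1)) := by
      have h1 : A.b r1 * H γ (A.φ r1) = q := by
        have := hΦr1
        rw [Φ] at this
        linarith
      have h2 : 0 < A.Φ (g (A.φ r1)) := hΦpos _ ⟨he_pos r1 ⟨le_rfl, hr1.2.le⟩, he_lt r1 hr1m⟩
      rw [Φ, (hg2 _ (hφlt r1 hr1m).le).2] at h2
      have h3 := hHx r1 ⟨le_rfl, hr1.2.le⟩
      have h4 : A.b (g (A.φ r1)) * H γ (A.φ r1) < A.b r1 * H γ (A.φ r1) := by linarith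
      have := lt_of_mul_lt_mul_right h4 h3.le
      linarith
    have hδ2 : A.b r2 - A.b (g (A.φ r2)) < 0 := by
      rw [hr2θ', hθ, hg1 r0 le_rfl]
      have h1 : A.b r2 * H γ θ < q := by
        have := hp
        rw [Φ, hr2θ'] at this
        linarith
      have h1' : A.b r2 * H γ θ < A.b r0 * H γ θ := by linarith
      have := lt_of_mul_lt_mul_right h1' hHpos.le
      linarith
    obtain ⟨s, hs, hs0, hs1⟩ := first_nonpos hr1.2.le hδc hδ1 hδ2.le
    have hs2 : s < r2 := by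
      rcases lt_or_eq_of_le hs.2 with h | h
      · exact h
      · rw [h] at hs0; linarith
    have hsm' : s ∈ Icc r1 r2 := ⟨hs.1.le, hs.2⟩
    have hsp : 0 < s := hr1p.trans hs.1
    set ξ := g (A.φ s) with hξ
    have hξp : 0 < ξ := he_pos s hsm'
    have hξlt : ξ < r0 := he_lt s ⟨hs.1.le, hs2⟩
    have hφξ : A.φ ξ = A.φ s := (hg2 _ (hφle s hsm')).2
    have hΦξ : 0 < A.Φ ξ := hΦpos ξ ⟨hξp, hξlt⟩
    have hbeq : A.b s = A.b ξ := by linarith
    have hΦeq : A.Φ s = A.Φ ξ := by rw [Φ, Φ, hφξ, hbeq]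
    have hcoss : cos (A.φ s) ≠ 0 := by
      intro h
      have := hHx s hsm'
      rw [H_of_cos h] at this
      exact lt_irrefl _ this
    have hmatch := A.hasDerivAt_match A hgc hg2 hsp (hφlt s ⟨hs.1.le, hs2⟩) hξp hΦξ.ne' hcoss
    rw [← hξ, hΦeq, div_self hΦξ.ne', mul_one] at hmatch
    have hbξ : HasDerivAt (fun x => A.b (g (A.φ x))) (A.db ξ * (A.w ξ / A.w s)) s :=
      HasDerivAt.comp s (h₂ := A.b) (A.hasDerivAt_b hk hξp) hmatch
    have hδd := (A.hasDerivAt_b hk hsp).sub hbξ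
    have hws := A.w_pos s
    have hwξ := A.w_pos ξ
    have hwlt : A.w ξ < A.w s := by
      have h1 : cosh s / sinh s < cosh ξ / sinh ξ := coth_lt hξp (by linarith [hr1.1, hs.1])
      have h2 : k * (cosh s / sinh s) * A.w s = k * (cosh ξ / sinh ξ) * A.w ξ := hbeq
      have h3 := coth_pos hsp
      by_contra h
      push Not at h
      have h4 : k * (cosh s / sinh s) * A.w s < k * (cosh ξ / sinh ξ) * A.w ξ := by
        calc k * (cosh s / sinh s) * A.w s ≤ k * (cosh s / sinh s) * A.w ξ :=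
              mul_le_mul_of_nonneg_left h (by positivity)
          _ < k * (cosh ξ / sinh ξ) * A.w ξ := by
              apply mul_lt_mul_of_pos_right _ hwξ
              exact mul_lt_mul_of_pos_left h1 hk
      linarith
    have hdpos : 0 < A.db s - A.db ξ * (A.w ξ / A.w s) := by
      have : A.db s - A.db ξ * (A.w ξ / A.w s) = k * (A.w s ^ 2 - A.w ξ ^ 2) / A.w s := by
        simp only [db]
        rw [hφξ, hbeq]
        field_simp
        ring
      rw [this]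
      apply div_pos _ hws
      apply mul_pos hk
      nlinarith
    obtain ⟨x, hx1, hx2⟩ := ((eventually_left_lt hδd hdpos).and (Ioo_mem_nhdsLT hs.1)).exists
    have h5 := hs1 x ⟨hx2.1.le, hx2.2⟩
    simp only [Pi.sub_apply] at hx1
    linarith

end Flow

end Pool.Agent.MP815fa1
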