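import Pool.Agent.Lib.MP_815fa1_an.Compare

/-! From a radial Emden–Fowler solution to a flow. -/

open Set Filter Topology Real

namespace Pool.Agent.MP815fa1

/-! ### powers -/

lemma pow_abs {a : ℝ} (x : ℝ) (ha : 0 < a) : |(|x| ^ a * x)| = |x| ^ (a + 1) := by
  rw [abs_mul, abs_of_nonneg (rpow_nonneg (abs_nonneg x) a)]
  rcases eq_or_ne x 0 with h | h
  · subst h
    simp
    rw [zero_rpow (by linarith)]
  · rw [rpow_add (abs_pos.2 h), rpow_one]

lemma pow_γ {a : ℝ} (x : ℝ) (ha : 0 < a) : |(|x| ^ a * x)| ^ (a / (a + 1)) = |x| ^ a := by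
  rw [pow_abs x ha, ← rpow_mul (abs_nonneg x)]
  congr 1
  field_simp

lemma pow_neg_γ {a : ℝ} (x : ℝ) (ha : 0 < a) :
    |(|x| ^ a * x)| ^ (-(a / (a + 1))) * (|x| ^ a * x) = x := by
  rcases eq_or_ne x 0 with h | h
  · subst h; simp
  · rw [rpow_neg (abs_nonneg _), pow_γ x ha]
    have : 0 < |x| ^ a := rpow_pos_of_pos (abs_pos.2 h) _
    field_simp

lemma pow_two_mul {a : ℝ} (x : ℝ) (ha : 0 < a) : |x| ^ a * (|x| ^ a * x) = |x| ^ (2 * a) * x := by
  rcases eq_or_ne x 0 with h | h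
  · subst h; simp
  · rw [← mul_assoc, ← rpow_add (abs_pos.2 h)]
    congr 2
    ring

lemma hasDerivAt_pow {a : ℝ} (ha : 0 < a) (x : ℝ) :
    HasDerivAt (fun x : ℝ => |x| ^ a * x) ((a + 1) * |x| ^ a) x := by
  have hne : ∀ y : ℝ, y ≠ 0 → HasDerivAt (fun x : ℝ => |x| ^ a * x) ((a + 1) * |y| ^ a) y := by
    intro y hy
    have h1 : HasDerivAt (fun x : ℝ => |x|) (SignType.sign y : ℝ) y := hasDerivAt_abs hy
    have h2 := (h1.rpow_const (p := a) (Or.inl (abs_pos.2 hy).ne')).mul (hasDerivAt_id y)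
    refine h2.congr_deriv ?_
    have h3 : (SignType.sign y : ℝ) * y = |y| := by
      rw [sign_mul_self]
    have h4 : |y| ^ (a - 1) * |y| = |y| ^ a := by
      rw [← rpow_add_one (abs_pos.2 hy).ne']; congr 1; ring
    simp only [id]
    calc (SignType.sign y : ℝ) * a * |y| ^ (a - 1) * y + |y| ^ a * 1
        = a * (|y| ^ (a - 1) * ((SignType.sign y : ℝ) * y)) + |y| ^ a := by ring
      _ = _ := by rw [h3, h4]; ring
  rcases eq_or_ne x 0 with h | h
  · rw [h]
    refine hasDerivAt_of_hasDerivAt_of_ne (g := fun y => (a + 1) * |y| ^ a) hne ?_ ?_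
    · exact ((continuous_abs.rpow_const (fun _ => Or.inr ha.le)).mul continuous_id).continuousAt
    · exact (continuous_const.mul
        (continuous_abs.rpow_const (fun _ => Or.inr ha.le))).continuousAt
  · exact hne x h

lemma continuous_ext {f : ℝ → ℝ} {c : ℝ} (hf : ∀ t, 0 < t → ContinuousAt f t)
    (h0 : Tendsto f (𝓝[>] 0) (𝓝 c)) : Continuous (fun t => if t ≤ 0 then c else f t) := by
  rw [continuous_iff_continuousAt]
  intro t
  rcases lt_trichotomy t 0 with ht | ht | ht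
  · have h : (fun t => if t ≤ 0 then c else f t) =ᶠ[𝓝 t] fun _ => c := by
      filter_upwards [Iio_mem_nhds ht] with x hx
      rw [if_pos (le_of_lt hx)]
    exact (continuousAt_const).congr h.symm
  · subst ht
    rw [ContinuousAt, if_pos le_rfl, ← nhdsLE_sup_nhdsGT, tendsto_sup]
    constructor
    · refine tendsto_const_nhds.congr' ?_
      filter_upwards [self_mem_nhdsWithin] with x hx
      have hx' : x ≤ 0 := hx
      rw [if_pos hx']
    · refine h0.congr' ?_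
      filter_upwards [self_mem_nhdsWithin] with x hx
      have hx' : 0 < x := hx
      rw [if_neg (not_le.2 hx')]
  · have h : (fun t => if t ≤ 0 then c else f t) =ᶠ[𝓝 t] f := by
      filter_upwards [Ioi_mem_nhds ht] with x hx
      rw [if_neg (not_le.2 hx)]
    exact (hf t ht).congr h.symm

/-! ### solutions -/

structure Sol (k a α : ℝ) (u v : ℝ → ℝ) : Prop where
  hu : ∀ r, 0 < r → HasDerivAt u (v r) r
  hv : ∀ r, 0 < r → HasDerivAt v (-(k * (cosh r / sinh r) * v r) - |u r| ^ (2 * a) * u r) r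
  hu0 : Tendsto u (𝓝[>] 0) (𝓝 α)
  hv0 : Tendsto (fun r => v r / sinh r) (𝓝[>] 0) (𝓝 (-(α ^ (2 * a + 1) / (k + 1))))

noncomputable def X (a : ℝ) (u : ℝ → ℝ) (t : ℝ) : ℝ := |u t| ^ a * u t
noncomputable def Y (a : ℝ) (v : ℝ → ℝ) (t : ℝ) : ℝ := -(√(a + 1) * v t)
noncomputable def N (a : ℝ) (u v : ℝ → ℝ) (t : ℝ) : ℝ := X a u t ^ 2 + Y a v t ^ 2
noncomputable def ψ (k a : ℝ) (u v : ℝ → ℝ) (t : ℝ) : ℝ :=
  √(a + 1) * |u t| ^ a - k * (cosh t / sinh t) * X a u t * Y a v t / N a u v t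

namespace Sol

variable {k a α : ℝ} {u v : ℝ → ℝ}

lemma hasDerivAt_X (hs : Sol k a α u v) (ha : 0 < a) {t : ℝ} (ht : 0 < t) :
    HasDerivAt (X a u) (-(√(a + 1) * |u t| ^ a * Y a v t)) t := by
  have h := (hasDerivAt_pow ha (u t)).comp t (hs.hu t ht)
  refine h.congr_deriv ?_
  have : √(a + 1) * √(a + 1) = a + 1 := mul_self_sqrt (by linarith)
  rw [Y]
  calc (a + 1) * |u t| ^ a * v t = (√(a + 1) * √(a + 1)) * |u t| ^ a * v t := by rw [this]
    _ = _ := by ring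

lemma hasDerivAt_Y (hs : Sol k a α u v) (ha : 0 < a) {t : ℝ} (ht : 0 < t) :
    HasDerivAt (Y a v) (√(a + 1) * |u t| ^ a * X a u t - k * (cosh t / sinh t) * Y a v t) t := by
  have h := ((hs.hv t ht).const_mul (√(a + 1))).neg
  refine h.congr_deriv ?_
  have h2 := pow_two_mul (u t) ha
  rw [X, Y, ← h2]
  ring

lemma hasDerivAt_N (hs : Sol k a α u v) (ha : 0 < a) {t : ℝ} (ht : 0 < t) :
    HasDerivAt (N a u v) (-(2 * (k * (cosh t / sinh t)) * Y a v t ^ 2)) t := by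
  have h := ((hs.hasDerivAt_X ha ht).pow 2).add ((hs.hasDerivAt_Y ha ht).pow 2)
  refine h.congr_deriv ?_
  ring

/-! limits at zero -/

lemma tendsto_sinh : Tendsto sinh (𝓝[>] 0) (𝓝 0) := by
  have := continuous_sinh.tendsto 0
  rw [sinh_zero] at this
  exact this.mono_left nhdsWithin_le_nhds

lemma tendsto_cosh : Tendsto cosh (𝓝[>] 0) (𝓝 1) := by
  have := continuous_cosh.tendsto 0
  rw [cosh_zero] at this
  exact this.mono_left nhdsWithin_le_nhds

lemma tendsto_v (hs : Sol k a α u v) : Tendsto v (𝓝[>] 0) (𝓝 0) := by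
  have h := hs.hv0.mul tendsto_sinh
  rw [mul_zero] at h
  refine h.congr' ?_
  filter_upwards [self_mem_nhdsWithin] with t ht
  have : sinh t ≠ 0 := (sinh_pos_iff.2 ht).ne'
  field_simp

lemma tendsto_cv (hs : Sol k a α u v) :
    Tendsto (fun t => k * (cosh t / sinh t) * v t) (𝓝[>] 0)
      (𝓝 (-(k * α ^ (2 * a + 1) / (k + 1)))) := by
  have h := (tendsto_cosh.const_mul k).mul hs.hv0
  have e : k * 1 * -(α ^ (2 * a + 1) / (k + 1)) = -(k * α ^ (2 * a + 1) / (k + 1)) := by ring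
  rw [e] at h
  refine h.congr' ?_
  filter_upwards [self_mem_nhdsWithin] with t ht
  have : sinh t ≠ 0 := (sinh_pos_iff.2 ht).ne'
  field_simp

lemma tendsto_abs_u (hs : Sol k a α u v) (hα : 0 < α) (ha : 0 < a) :
    Tendsto (fun t => |u t| ^ a) (𝓝[>] 0) (𝓝 (α ^ a)) := by
  have h := (hs.hu0.abs).rpow_const (p := a) (Or.inr ha.le)
  rwa [abs_of_pos hα] at h

lemma tendsto_X (hs : Sol k a α u v) (hα : 0 < α) (ha : 0 < a) :
    Tendsto (X a u) (𝓝[>] 0) (𝓝 (α ^ (a + 1))) := by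
  have h := (hs.tendsto_abs_u hα ha).mul hs.hu0
  rwa [← rpow_add_one hα.ne'] at h

lemma tendsto_Y (hs : Sol k a α u v) : Tendsto (Y a v) (𝓝[>] 0) (𝓝 0) := by
  have h : Tendsto (Y a v) (𝓝[>] 0) (𝓝 (-(√(a + 1) * 0))) :=
    (hs.tendsto_v.const_mul (√(a + 1))).neg
  rwa [mul_zero, neg_zero] at h

lemma tendsto_N (hs : Sol k a α u v) (hα : 0 < α) (ha : 0 < a) :
    Tendsto (N a u v) (𝓝[>] 0) (𝓝 ((α ^ (a + 1)) ^ 2)) := by
  have h : Tendsto (N a u v) (𝓝[>] 0) (𝓝 ((α ^ (a + 1)) ^ 2 + 0 ^ 2)) :=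
    ((hs.tendsto_X hα ha).pow 2).add (hs.tendsto_Y.pow 2)
  rwa [show (α ^ (a + 1)) ^ 2 + (0 : ℝ) ^ 2 = (α ^ (a + 1)) ^ 2 by ring] at h

lemma tendsto_cY (hs : Sol k a α u v) :
    Tendsto (fun t => k * (cosh t / sinh t) * Y a v t) (𝓝[>] 0)
      (𝓝 (√(a + 1) * (k * α ^ (2 * a + 1) / (k + 1)))) := by
  have h := (hs.tendsto_cv.const_mul (-√(a + 1)))
  rw [show -√(a + 1) * -(k * α ^ (2 * a + 1) / (k + 1)) =
    √(a + 1) * (k * α ^ (2 * a + 1) / (k + 1)) by ring] at h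
  refine h.congr (fun t => ?_)
  rw [Y]; ring

lemma tendsto_cXY (hs : Sol k a α u v) (hα : 0 < α) (ha : 0 < a) :
    Tendsto (fun t => k * (cosh t / sinh t) * X a u t * Y a v t / N a u v t) (𝓝[>] 0)
      (𝓝 (√(a + 1) * k / (k + 1) * α ^ a)) := by
  have hα' : (0 : ℝ) < α ^ (a + 1) := rpow_pos_of_pos hα _
  have h := (((hs.tendsto_cY).mul (hs.tendsto_X hα ha))).div (hs.tendsto_N hα ha)
    (by positivity)
  have e : √(a + 1) * (k * α ^ (2 * a + 1) / (k + 1)) * α ^ (a + 1) / (α ^ (a + 1)) ^ 2 =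
      √(a + 1) * k / (k + 1) * α ^ a := by
    have h1 : α ^ (2 * a + 1) = α ^ a * α ^ (a + 1) := by
      rw [← rpow_add hα]; congr 1; ring
    rw [h1]
    field_simp
  rw [e] at h
  refine h.congr (fun t => ?_)
  simp only [Pi.div_apply]
  ring

lemma tendsto_ψ (hs : Sol k a α u v) (hα : 0 < α) (ha : 0 < a) (hk : 0 < k) :
    Tendsto (ψ k a u v) (𝓝[>] 0) (𝓝 (√(a + 1) * α ^ a / (k + 1))) := by
  have h := ((hs.tendsto_abs_u hα ha).const_mul (√(a + 1))).sub (hs.tendsto_cXY hα ha)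
  have e : √(a + 1) * α ^ a - √(a + 1) * k / (k + 1) * α ^ a = √(a + 1) * α ^ a / (k + 1) := by
    field_simp; ring
  rw [e] at h
  exact h

lemma N_pos (hs : Sol k a α u v) (hα : 0 < α) (ha : 0 < a) (hk : 0 < k) {t : ℝ} (ht : 0 < t) :
    0 < N a u v t := by
  have hα' : (0 : ℝ) < (α ^ (a + 1)) ^ 2 := by positivity
  have h1 := (hs.tendsto_N hα ha).eventually (lt_mem_nhds hα')
  obtain ⟨s, hs1, hs2⟩ := (h1.and (Ioo_mem_nhdsGT ht)).exists
  have hM : MonotoneOn (fun x => N a u v x * sinh x ^ (2 * k)) (Icc s t) := by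
    have hd : ∀ x, 0 < x → HasDerivAt (fun x => N a u v x * sinh x ^ (2 * k))
        (-(2 * (k * (cosh x / sinh x)) * Y a v x ^ 2) * sinh x ^ (2 * k) +
          N a u v x * (cosh x * (2 * k) * sinh x ^ (2 * k - 1))) x := by
      intro x hx
      exact (hs.hasDerivAt_N ha hx).mul
        ((hasDerivAt_sinh x).rpow_const (p := 2 * k) (Or.inl (sinh_pos_iff.2 hx).ne'))
    refine mono_Icc ?_ ?_
    · intro x hx
      exact (hd x (hs2.1.trans_le hx.1)).continuousAt.continuousWithinAt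
    · intro x hx
      have hx0 : 0 < x := hs2.1.trans hx.1
      refine ⟨_, ?_, hd x hx0⟩
      have hsp := sinh_pos_iff.2 hx0
      have e : sinh x ^ (2 * k - 1) = sinh x ^ (2 * k) / sinh x := by
        rw [rpow_sub_one hsp.ne']
      rw [e]
      have e2 : -(2 * (k * (cosh x / sinh x)) * Y a v x ^ 2) * sinh x ^ (2 * k) +
          N a u v x * (cosh x * (2 * k) * (sinh x ^ (2 * k) / sinh x)) =
          2 * k * (cosh x / sinh x) * X a u x ^ 2 * sinh x ^ (2 * k) := by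
        rw [N]
        field_simp
        ring
      rw [e2]
      have := coth_pos hx0
      have := rpow_pos_of_pos hsp (2 * k)
      positivity
  have h2 := hM ⟨le_rfl, hs2.2.le⟩ ⟨hs2.2.le, le_rfl⟩ hs2.2.le
  simp only at h2
  have h3 : 0 < N a u v s * sinh s ^ (2 * k) :=
    mul_pos hs1 (rpow_pos_of_pos (sinh_pos_iff.2 hs2.1) _)
  exact (pos_iff_pos_of_mul_pos (h3.trans_le h2)).2
    (rpow_pos_of_pos (sinh_pos_iff.2 ht) _)

lemma continuousAt_u (hs : Sol k a α u v) {t : ℝ} (ht : 0 < t) : ContinuousAt u t :=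
  (hs.hu t ht).continuousAt

lemma continuousAt_v (hs : Sol k a α u v) {t : ℝ} (ht : 0 < t) : ContinuousAt v t :=
  (hs.hv t ht).continuousAt

lemma continuousAt_coth {t : ℝ} (ht : 0 < t) : ContinuousAt (fun t => cosh t / sinh t) t :=
  continuous_cosh.continuousAt.div continuous_sinh.continuousAt (sinh_pos_iff.2 ht).ne'

lemma continuousAt_ψ (hs : Sol k a α u v) (hα : 0 < α) (ha : 0 < a) (hk : 0 < k) {t : ℝ}
    (ht : 0 < t) : ContinuousAt (ψ k a u v) t := by
  have h1 : ContinuousAt (fun t => |u t| ^ a) t :=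
    (hs.continuousAt_u ht).abs.rpow_const (Or.inr ha.le)
  have h2 := (hs.hasDerivAt_X ha ht).continuousAt
  have h3 := (hs.hasDerivAt_Y ha ht).continuousAt
  have h4 := (hs.hasDerivAt_N ha ht).continuousAt
  have h5 := continuousAt_coth ht
  exact (continuousAt_const.mul h1).sub
    ((((continuousAt_const.mul h5).mul h2).mul h3).div h4 (hs.N_pos hα ha hk ht).ne')

end Sol

/-- the angle density, extended by a constant to `t ≤ 0` -/
noncomputable def ψe (k a α : ℝ) (u v : ℝ → ℝ) (t : ℝ) : ℝ :=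
  if t ≤ 0 then √(a + 1) * α ^ a / (k + 1) else ψ k a u v t

/-- the angle -/
noncomputable def ang (k a α : ℝ) (u v : ℝ → ℝ) (t : ℝ) : ℝ := ∫ s in (0)..t, ψe k a α u v s

namespace Sol

variable {k a α : ℝ} {u v : ℝ → ℝ}

lemma continuous_ψe (hs : Sol k a α u v) (hα : 0 < α) (ha : 0 < a) (hk : 0 < k) :
    Continuous (ψe k a α u v) :=
  continuous_ext (fun _ ht => hs.continuousAt_ψ hα ha hk ht) (hs.tendsto_ψ hα ha hk)

lemma hasDerivAt_ang (hs : Sol k a α u v) (hα : 0 < α) (ha : 0 < a) (hk : 0 < k) (t : ℝ) :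
    HasDerivAt (ang k a α u v) (ψe k a α u v t) t :=
  intervalIntegral.integral_hasDerivAt_right
    ((hs.continuous_ψe hα ha hk).intervalIntegrable _ _)
    (hs.continuous_ψe hα ha hk).stronglyMeasurable.stronglyMeasurableAtFilter
    (hs.continuous_ψe hα ha hk).continuousAt

lemma hasDerivAt_ang' (hs : Sol k a α u v) (hα : 0 < α) (ha : 0 < a) (hk : 0 < k) {t : ℝ}
    (ht : 0 < t) : HasDerivAt (ang k a α u v) (ψ k a u v t) t := by
  have h := hs.hasDerivAt_ang hα ha hk t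
  rwa [ψe, if_neg (not_le.2 ht)] at h

lemma ang_neg {t : ℝ} (ht : t ≤ 0) :
    ang k a α u v t = √(a + 1) * α ^ a / (k + 1) * t := by
  rw [ang, intervalIntegral.integral_congr (g := fun _ => √(a + 1) * α ^ a / (k + 1))]
  · rw [intervalIntegral.integral_const]
    simp only [sub_zero, smul_eq_mul]
    ring
  · intro s hs
    rw [uIcc_of_ge ht] at hs
    simp only [ψe]
    rw [if_pos hs.2]

lemma continuous_ang (hs : Sol k a α u v) (hα : 0 < α) (ha : 0 < a) (hk : 0 < k) :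
    Continuous (ang k a α u v) :=
  continuous_iff_continuousAt.2 fun t => (hs.hasDerivAt_ang hα ha hk t).continuousAt

lemma hasDerivAt_C (hs : Sol k a α u v) (hα : 0 < α) (ha : 0 < a) (hk : 0 < k) {t : ℝ}
    (ht : 0 < t) : HasDerivAt (fun t => X a u t / √(N a u v t))
      (-(ψ k a u v t * (Y a v t / √(N a u v t)))) t := by
  have hN := hs.N_pos hα ha hk ht
  have hsq : 0 < √(N a u v t) := sqrt_pos.2 hN
  have h := (hs.hasDerivAt_X ha ht).div ((hs.hasDerivAt_N ha ht).sqrt hN.ne') hsq.ne'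
  refine h.congr_deriv ?_
  have e : N a u v t = √(N a u v t) ^ 2 := (sq_sqrt hN.le).symm
  rw [ψ]
  set c := k * (cosh t / sinh t)
  set s := √(N a u v t) with hs'
  rw [e]
  field_simp
  have e2 : s ^ 2 = X a u t ^ 2 + Y a v t ^ 2 := by rw [← e]; rfl
  ring

lemma hasDerivAt_S (hs : Sol k a α u v) (hα : 0 < α) (ha : 0 < a) (hk : 0 < k) {t : ℝ}
    (ht : 0 < t) : HasDerivAt (fun t => Y a v t / √(N a u v t))
      (ψ k a u v t * (X a u t / √(N a u v t))) t := by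
  have hN := hs.N_pos hα ha hk ht
  have hsq : 0 < √(N a u v t) := sqrt_pos.2 hN
  have h := (hs.hasDerivAt_Y ha ht).div ((hs.hasDerivAt_N ha ht).sqrt hN.ne') hsq.ne'
  refine h.congr_deriv ?_
  have e : N a u v t = √(N a u v t) ^ 2 := (sq_sqrt hN.le).symm
  rw [ψ]
  set c := k * (cosh t / sinh t)
  set s := √(N a u v t) with hs'
  rw [e]
  have e2 : s ^ 2 = X a u t ^ 2 + Y a v t ^ 2 := by rw [← e]; rfl
  have e3 : Y a v t ^ 2 = s ^ 2 - X a u t ^ 2 := by linarith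
  field_simp
  have e4 : Y a v t ^ 3 = Y a v t * (s ^ 2 - X a u t ^ 2) := by rw [← e3]; ring
  ring_nf
  rw [e4]
  ring

end Sol

end Pool.Agent.MP815fa1
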