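import Pool.Agent.Lib.MP_815fa1_an.Sol

/-! Construction of the flow attached to a solution. -/

open Set Filter Topology Real

namespace Pool.Agent.MP815fa1

/-- the energy weight -/
noncomputable def wt (a α : ℝ) (u v : ℝ → ℝ) (t : ℝ) : ℝ :=
  if t ≤ 0 then α ^ (-a) else N a u v t ^ (-(a / (a + 1) / 2))

noncomputable def F (k a : ℝ) (u v : ℝ → ℝ) (t : ℝ) : ℝ :=
  N a u v t + k * (cosh t / sinh t) * u t * v t

noncomputable def Q (a : ℝ) (u v : ℝ → ℝ) (t : ℝ) : ℝ :=
  -(u t * v t) - a * (sinh t * cosh t) * v t ^ 2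

namespace Sol

variable {k a α : ℝ} {u v : ℝ → ℝ}

lemma CS_sq (hs : Sol k a α u v) (hα : 0 < α) (ha : 0 < a) (hk : 0 < k) {t : ℝ}
    (ht : 0 < t) : (X a u t / √(N a u v t)) ^ 2 + (Y a v t / √(N a u v t)) ^ 2 = 1 := by
  have hN := hs.N_pos hα ha hk ht
  rw [div_pow, div_pow, sq_sqrt hN.le, ← add_div]
  exact div_self hN.ne'

lemma inner_eq_one (hs : Sol k a α u v) (hα : 0 < α) (ha : 0 < a) (hk : 0 < k) {t : ℝ}
    (ht : 0 < t) : X a u t / √(N a u v t) * cos (ang k a α u v t) +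
      Y a v t / √(N a u v t) * sin (ang k a α u v t) = 1 := by
  set f : ℝ → ℝ := fun t => X a u t / √(N a u v t) * cos (ang k a α u v t) +
      Y a v t / √(N a u v t) * sin (ang k a α u v t) with hf
  have hd : ∀ x, 0 < x → HasDerivAt f 0 x := by
    intro x hx
    have h1 := hs.hasDerivAt_C hα ha hk hx
    have h2 := hs.hasDerivAt_S hα ha hk hx
    have h3 := hs.hasDerivAt_ang' hα ha hk hx
    refine ((h1.mul h3.cos).add (h2.mul h3.sin)).congr_deriv ?_
    ring
  have hlim : Tendsto f (𝓝[>] 0) (𝓝 1) := by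
    have hα' : (0 : ℝ) < α ^ (a + 1) := rpow_pos_of_pos hα _
    have hN : Tendsto (fun t => √(N a u v t)) (𝓝[>] 0) (𝓝 (α ^ (a + 1))) := by
      have := (hs.tendsto_N hα ha).sqrt
      rwa [sqrt_sq hα'.le] at this
    have hX := (hs.tendsto_X hα ha).div hN hα'.ne'
    have hY := (hs.tendsto_Y).div hN hα'.ne'
    have hφ : Tendsto (ang k a α u v) (𝓝[>] 0) (𝓝 0) := by
      have h := (hs.continuous_ang hα ha hk).tendsto 0
      rw [ang_neg le_rfl, mul_zero] at h
      exact h.mono_left nhdsWithin_le_nhds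
    have hcos : Tendsto (fun t => cos (ang k a α u v t)) (𝓝[>] 0) (𝓝 1) := by
      have := (continuous_cos.tendsto 0).comp hφ
      rwa [cos_zero] at this
    have hsin : Tendsto (fun t => sin (ang k a α u v t)) (𝓝[>] 0) (𝓝 0) := by
      have := (continuous_sin.tendsto 0).comp hφ
      rwa [sin_zero] at this
    have h := (hX.mul hcos).add (hY.mul hsin)
    rw [div_self hα'.ne'] at h
    simpa using h
  have hconst : ∀ x ∈ Ioo 0 t, f x = f t := by
    intro x hx
    have hc : ContinuousOn f (Icc x t) := fun y hy =>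
      (hd y (hx.1.trans_le hy.1)).continuousAt.continuousWithinAt
    have h1 := mono_Icc hc (fun y hy => ⟨0, le_rfl, hd y (hx.1.trans hy.1)⟩)
    have h2 := anti_Icc hc (fun y hy => ⟨0, le_rfl, hd y (hx.1.trans hy.1)⟩)
    exact le_antisymm (h1 ⟨le_rfl, hx.2.le⟩ ⟨hx.2.le, le_rfl⟩ hx.2.le)
      (h2 ⟨le_rfl, hx.2.le⟩ ⟨hx.2.le, le_rfl⟩ hx.2.le)
  have h1 : Tendsto f (𝓝[>] 0) (𝓝 (f t)) := by
    refine tendsto_const_nhds.congr' ?_
    filter_upwards [Ioo_mem_nhdsGT ht] with x hx using (hconst x hx).symm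
  exact tendsto_nhds_unique h1 hlim

lemma cos_sin_ang (hs : Sol k a α u v) (hα : 0 < α) (ha : 0 < a) (hk : 0 < k) {t : ℝ}
    (ht : 0 < t) : cos (ang k a α u v t) = X a u t / √(N a u v t) ∧
      sin (ang k a α u v t) = Y a v t / √(N a u v t) := by
  have h1 := hs.CS_sq hα ha hk ht
  have h2 := hs.inner_eq_one hα ha hk ht
  have h3 := sin_sq_add_cos_sq (ang k a α u v t)
  set C := X a u t / √(N a u v t)
  set S := Y a v t / √(N a u v t)
  set c := cos (ang k a α u v t)
  set s := sin (ang k a α u v t)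
  have h4 : (c - C) ^ 2 + (s - S) ^ 2 = 0 := by nlinarith
  have h5 : (c - C) ^ 2 = 0 := by nlinarith [sq_nonneg (c - C), sq_nonneg (s - S)]
  have h6 : (s - S) ^ 2 = 0 := by nlinarith [sq_nonneg (c - C), sq_nonneg (s - S)]
  exact ⟨sub_eq_zero.1 (pow_eq_zero_iff (two_ne_zero) |>.1 h5),
    sub_eq_zero.1 (pow_eq_zero_iff (two_ne_zero) |>.1 h6)⟩

lemma wt_of_pos {t : ℝ} (ht : 0 < t) : wt a α u v t = N a u v t ^ (-(a / (a + 1) / 2)) := by
  rw [wt, if_neg (not_le.2 ht)]

lemma wt_pos (hs : Sol k a α u v) (hα : 0 < α) (ha : 0 < a) (hk : 0 < k) (t : ℝ) :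
    0 < wt a α u v t := by
  rcases le_or_gt t 0 with h | h
  · rw [wt, if_pos h]; exact rpow_pos_of_pos hα _
  · rw [wt_of_pos h]; exact rpow_pos_of_pos (hs.N_pos hα ha hk h) _

lemma wt_cont (hs : Sol k a α u v) (hα : 0 < α) (ha : 0 < a) (hk : 0 < k) :
    Continuous (wt a α u v) := by
  refine continuous_ext ?_ ?_
  · intro t ht
    exact (hs.hasDerivAt_N ha ht).continuousAt.rpow_const (Or.inl (hs.N_pos hα ha hk ht).ne')
  · have hα' : (0 : ℝ) < α ^ (a + 1) := rpow_pos_of_pos hα _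
    have h := (hs.tendsto_N hα ha).rpow_const (p := -(a / (a + 1) / 2))
      (Or.inl (by positivity))
    have e : ((α ^ (a + 1)) ^ 2) ^ (-(a / (a + 1) / 2)) = α ^ (-a) := by
      rw [← rpow_natCast (α ^ (a + 1)) 2, ← rpow_mul hα.le, ← rpow_mul hα.le]
      congr 1
      push_cast
      field_simp
    rwa [e] at h

lemma sin_sq_ang (hs : Sol k a α u v) (hα : 0 < α) (ha : 0 < a) (hk : 0 < k) {t : ℝ}
    (ht : 0 < t) : sin (ang k a α u v t) ^ 2 = Y a v t ^ 2 / N a u v t := by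
  rw [(hs.cos_sin_ang hα ha hk ht).2, div_pow, sq_sqrt (hs.N_pos hα ha hk ht).le]

lemma hasDerivAt_wt (hs : Sol k a α u v) (hα : 0 < α) (ha : 0 < a) (hk : 0 < k) {t : ℝ}
    (ht : 0 < t) : HasDerivAt (wt a α u v)
      (a / (a + 1) * (k * (cosh t / sinh t) * wt a α u v t) * sin (ang k a α u v t) ^ 2) t := by
  have hN := hs.N_pos hα ha hk ht
  have h := (hs.hasDerivAt_N ha ht).rpow_const (p := -(a / (a + 1) / 2)) (Or.inl hN.ne')
  have h2 : wt a α u v =ᶠ[𝓝 t] fun t => N a u v t ^ (-(a / (a + 1) / 2)) := by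
    filter_upwards [Ioi_mem_nhds ht] with x hx
    exact wt_of_pos hx
  refine (h.congr_of_eventuallyEq h2).congr_deriv ?_
  rw [hs.sin_sq_ang hα ha hk ht, wt_of_pos ht, rpow_sub_one hN.ne']
  field_simp

/-- `G(φ)/w = |u|^a`. -/
lemma G_ang (hs : Sol k a α u v) (hα : 0 < α) (ha : 0 < a) (hk : 0 < k) {t : ℝ}
    (ht : 0 < t) : G (a / (a + 1)) (ang k a α u v t) = |u t| ^ a * wt a α u v t := by
  have hN := hs.N_pos hα ha hk ht
  rw [G, (hs.cos_sin_ang hα ha hk ht).1, abs_div, abs_of_pos (sqrt_pos.2 hN),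
    div_rpow (abs_nonneg _) (sqrt_nonneg _), X, pow_γ _ ha, wt_of_pos ht, rpow_neg hN.le,
    sqrt_eq_rpow, ← rpow_mul hN.le, show 1 / 2 * (a / (a + 1)) = a / (a + 1) / 2 by ring]
  rfl

/-- `w H(φ) = u Y / N`. -/
lemma H_ang (hs : Sol k a α u v) (hα : 0 < α) (ha : 0 < a) (hk : 0 < k) {t : ℝ}
    (ht : 0 < t) : wt a α u v t * H (a / (a + 1)) (ang k a α u v t) =
      u t * Y a v t / N a u v t := by
  have hN := hs.N_pos hα ha hk ht
  have hsq : 0 < √(N a u v t) := sqrt_pos.2 hN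
  rw [H, (hs.cos_sin_ang hα ha hk ht).1, (hs.cos_sin_ang hα ha hk ht).2, abs_div,
    abs_of_pos hsq, div_rpow (abs_nonneg _) (sqrt_nonneg _), wt_of_pos ht]
  have e1 : √(N a u v t) ^ (-(a / (a + 1))) = N a u v t ^ (-(a / (a + 1) / 2)) := by
    rw [sqrt_eq_rpow, ← rpow_mul hN.le]
    congr 1
    ring
  rw [e1]
  have e2 : |X a u t| ^ (-(a / (a + 1))) * X a u t = u t := by
    rw [X]; exact pow_neg_γ _ ha
  have e3 : 0 < N a u v t ^ (-(a / (a + 1) / 2)) := rpow_pos_of_pos hN _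
  have e4 : N a u v t = √(N a u v t) ^ 2 := (sq_sqrt hN.le).symm
  set s := √(N a u v t)
  set W := N a u v t ^ (-(a / (a + 1) / 2))
  rw [e4]
  calc W * (|X a u t| ^ (-(a / (a + 1))) / W * (X a u t / s) * (Y a v t / s))
      = (|X a u t| ^ (-(a / (a + 1))) * X a u t) * Y a v t / s ^ 2 := by field_simp
    _ = _ := by rw [e2]

lemma Phi_eq (hs : Sol k a α u v) (hα : 0 < α) (ha : 0 < a) (hk : 0 < k) {t : ℝ}
    (ht : 0 < t) : √(a + 1) - k * (cosh t / sinh t) * wt a α u v t *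
      H (a / (a + 1)) (ang k a α u v t) = √(a + 1) / N a u v t * F k a u v t := by
  have hN := hs.N_pos hα ha hk ht
  rw [mul_assoc (k * (cosh t / sinh t)), hs.H_ang hα ha hk ht, F, Y]
  field_simp
  ring

lemma ang_deriv (hs : Sol k a α u v) (hα : 0 < α) (ha : 0 < a) (hk : 0 < k) {t : ℝ}
    (ht : 0 < t) : HasDerivAt (ang k a α u v)
      (G (a / (a + 1)) (ang k a α u v t) * (√(a + 1) - k * (cosh t / sinh t) * wt a α u v t *
      H (a / (a + 1)) (ang k a α u v t)) / wt a α u v t) t := by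
  refine (hs.hasDerivAt_ang' hα ha hk ht).congr_deriv ?_
  have hN := hs.N_pos hα ha hk ht
  have hw := (hs.wt_pos hα ha hk t).ne'
  rw [hs.G_ang hα ha hk ht, mul_assoc (k * (cosh t / sinh t)), hs.H_ang hα ha hk ht, ψ]
  have e : X a u t = |u t| ^ a * u t := rfl
  rw [e]
  field_simp

lemma hasDerivAt_F (hs : Sol k a α u v) (ha : 0 < a) {t : ℝ} (ht : 0 < t) :
    HasDerivAt (F k a u v) (-(k * (cosh t / sinh t)) * F k a u v t +
      k / sinh t ^ 2 * Q a u v t) t := by
  have hsn : sinh t ≠ 0 := (sinh_pos_iff.2 ht).ne'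
  have h1 : HasDerivAt (fun t => cosh t / sinh t)
      ((sinh t * sinh t - cosh t * cosh t) / sinh t ^ 2) t :=
    (hasDerivAt_cosh t).div (hasDerivAt_sinh t) hsn
  have h := (hs.hasDerivAt_N ha ht).add (((h1.const_mul k).mul (hs.hu t ht)).mul (hs.hv t ht))
  refine h.congr_deriv ?_
  have hq : √(a + 1) ^ 2 = a + 1 := sq_sqrt (by linarith)
  have hN : N a u v t = |u t| ^ (2 * a) * u t ^ 2 + (a + 1) * v t ^ 2 := by
    have e1 : X a u t ^ 2 = |u t| ^ (2 * a) * u t ^ 2 := by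
      have := pow_two_mul (u t) ha
      calc X a u t ^ 2 = (|u t| ^ a * (|u t| ^ a * u t)) * u t := by rw [X]; ring
        _ = _ := by rw [this]; ring
    have e2 : Y a v t ^ 2 = (a + 1) * v t ^ 2 := by
      rw [Y, neg_sq, mul_pow, hq]
    rw [N, e1, e2]
  have hY : Y a v t ^ 2 = (a + 1) * v t ^ 2 := by
    rw [Y, neg_sq, mul_pow, hq]
  have hcs : cosh t * cosh t = sinh t * sinh t + 1 := by
    have := cosh_sq t; nlinarith
  simp only [F, Q, hN, hY, Pi.mul_apply]
  rw [hcs]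
  field_simp
  ring

lemma F_crit1 (hs : Sol k a α u v) (hα : 0 < α) (ha : 0 < a) (hk : 0 < k) {t : ℝ}
    (ht : 0 < t) (h0 : F k a u v t = 0) (hl : ∀ᶠ s in 𝓝[<] t, 0 < F k a u v s) :
    1 < k * (a / (a + 1)) * sin (ang k a α u v t) ^ 2 * cosh t ^ 2 := by
  by_contra hcon
  push Not at hcon
  have hN := hs.N_pos hα ha hk ht
  have hsp := sinh_pos_iff.2 ht
  have hcp := cosh_pos t
  have hq : √(a + 1) ^ 2 = a + 1 := sq_sqrt (by linarith)
  have hY : Y a v t ^ 2 = (a + 1) * v t ^ 2 := by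
    rw [Y, neg_sq, mul_pow, hq]
  have hcuv : k * (cosh t / sinh t) * u t * v t = -N a u v t := by
    rw [F] at h0; linarith
  have hv0 : v t ≠ 0 := by
    intro h
    rw [h, mul_zero] at hcuv
    linarith
  have hQ0 : 0 ≤ Q a u v t := by
    rw [hs.sin_sq_ang hα ha hk ht, hY] at hcon
    have e1 : k * (a / (a + 1)) * ((a + 1) * v t ^ 2 / N a u v t) * cosh t ^ 2 =
        k * a * v t ^ 2 * cosh t ^ 2 / N a u v t := by
      field_simp
    rw [e1, div_le_one hN] at hcon
    have e2 : N a u v t = -(k * (cosh t / sinh t) * u t * v t) := by linarith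
    rw [e2] at hcon
    rw [Q]
    have h3 : k * (cosh t / sinh t) * (a * (sinh t * cosh t) * v t ^ 2) ≤
        k * (cosh t / sinh t) * (-(u t * v t)) := by
      calc k * (cosh t / sinh t) * (a * (sinh t * cosh t) * v t ^ 2)
          = k * a * v t ^ 2 * cosh t ^ 2 := by field_simp
        _ ≤ -(k * (cosh t / sinh t) * u t * v t) := hcon
        _ = _ := by ring
    have := le_of_mul_le_mul_left h3 (mul_pos hk (coth_pos ht))
    linarith
  -- the quotient S = Q / v^2
  have hS : HasDerivAt (fun t => -(u t / v t) - a * (sinh t * cosh t))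
      (-(F k a u v t / v t ^ 2) - 2 * a * sinh t ^ 2) t := by
    have h1 := ((hs.hu t ht).div (hs.hv t ht) hv0).neg
    have h2 := (((hasDerivAt_sinh t).mul (hasDerivAt_cosh t)).const_mul a)
    refine (h1.sub h2).congr_deriv ?_
    have hN : N a u v t = |u t| ^ (2 * a) * u t ^ 2 + (a + 1) * v t ^ 2 := by
      have e1 : X a u t ^ 2 = |u t| ^ (2 * a) * u t ^ 2 := by
        have := pow_two_mul (u t) ha
        calc X a u t ^ 2 = (|u t| ^ a * (|u t| ^ a * u t)) * u t := by rw [X]; ring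
          _ = _ := by rw [this]; ring
      rw [N, e1, hY]
    have hcs : cosh t * cosh t = sinh t * sinh t + 1 := by
      have := cosh_sq t; nlinarith
    rw [F, hN, hcs]
    field_simp
    ring
  have hSneg : -(F k a u v t / v t ^ 2) - 2 * a * sinh t ^ 2 < 0 := by
    rw [h0, zero_div, neg_zero, zero_sub, neg_lt_zero]
    positivity
  have hS0 : 0 ≤ -(u t / v t) - a * (sinh t * cosh t) := by
    have e : -(u t / v t) - a * (sinh t * cosh t) = Q a u v t / v t ^ 2 := by
      rw [Q]; field_simp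
    rw [e]
    positivity
  have hvne : ∀ᶠ s in 𝓝[<] t, v s ≠ 0 :=
    ((hs.continuousAt_v ht).eventually_ne hv0).filter_mono nhdsWithin_le_nhds
  have hQleft : ∀ᶠ s in 𝓝[<] t, 0 < Q a u v s := by
    filter_upwards [eventually_left_gt hS hSneg, hvne] with s h1 h2
    have h3 : 0 < -(u s / v s) - a * (sinh s * cosh s) := by linarith
    have e : Q a u v s = v s ^ 2 * (-(u s / v s) - a * (sinh s * cosh s)) := by
      rw [Q]; field_simp
    rw [e]
    positivity
  -- J = sinh^k F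
  have hJ : ∀ x, 0 < x → HasDerivAt (fun x => sinh x ^ k * F k a u v x)
      (cosh x * k * sinh x ^ (k - 1) * F k a u v x +
        sinh x ^ k * (-(k * (cosh x / sinh x)) * F k a u v x + k / sinh x ^ 2 * Q a u v x)) x := by
    intro x hx
    exact ((hasDerivAt_sinh x).rpow_const (p := k) (Or.inl (sinh_pos_iff.2 hx).ne')).mul
      (hs.hasDerivAt_F ha hx)
  have hpos : 0 < sinh t ^ k * F k a u v t := by
    refine pos_of_left (f := fun x => sinh x ^ k * F k a u v x) (hJ t ht).continuousAt ?_ ?_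
    · filter_upwards [hl, Ioo_mem_nhdsLT ht] with s h1 h2
      exact mul_pos (rpow_pos_of_pos (sinh_pos_iff.2 h2.1) _) h1
    · filter_upwards [hQleft, Ioo_mem_nhdsLT ht] with s h1 h2
      refine ⟨_, ?_, hJ s h2.1⟩
      have h3 := sinh_pos_iff.2 h2.1
      have h4 := rpow_pos_of_pos h3 k
      rw [rpow_sub_one h3.ne']
      have e : cosh s * k * (sinh s ^ k / sinh s) * F k a u v s +
        sinh s ^ k * (-(k * (cosh s / sinh s)) * F k a u v s + k / sinh s ^ 2 * Q a u v s) =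
        sinh s ^ k * (k / sinh s ^ 2 * Q a u v s) := by
        field_simp
        ring
      rw [e]
      positivity
  rw [h0, mul_zero] at hpos
  exact lt_irrefl _ hpos

lemma F_crit2 (hs : Sol k a α u v) (hα : 0 < α) (ha : 0 < a) (hk : 0 < k) {t : ℝ}
    (ht : 0 < t) (h0 : F k a u v t = 0)
    (h1 : 1 < k * (a / (a + 1)) * sin (ang k a α u v t) ^ 2 * cosh t ^ 2) :
    ∀ᶠ s in 𝓝[>] t, F k a u v s < 0 := by
  have hN := hs.N_pos hα ha hk ht
  have hsp := sinh_pos_iff.2 ht
  have hcp := cosh_pos t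
  have hq : √(a + 1) ^ 2 = a + 1 := sq_sqrt (by linarith)
  have hY : Y a v t ^ 2 = (a + 1) * v t ^ 2 := by
    rw [Y, neg_sq, mul_pow, hq]
  have hcuv : k * (cosh t / sinh t) * u t * v t = -N a u v t := by
    rw [F] at h0; linarith
  have hQ0 : Q a u v t < 0 := by
    rw [hs.sin_sq_ang hα ha hk ht, hY] at h1
    have e1 : k * (a / (a + 1)) * ((a + 1) * v t ^ 2 / N a u v t) * cosh t ^ 2 =
        k * a * v t ^ 2 * cosh t ^ 2 / N a u v t := by
      field_simp
    rw [e1, one_lt_div hN] at h1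
    have e2 : N a u v t = -(k * (cosh t / sinh t) * u t * v t) := by linarith
    rw [e2] at h1
    rw [Q]
    have h3 : k * (cosh t / sinh t) * (-(u t * v t)) <
        k * (cosh t / sinh t) * (a * (sinh t * cosh t) * v t ^ 2) := by
      calc k * (cosh t / sinh t) * (-(u t * v t)) = -(k * (cosh t / sinh t) * u t * v t) := by ring
        _ < k * a * v t ^ 2 * cosh t ^ 2 := h1
        _ = _ := by field_simp
    have := lt_of_mul_lt_mul_left h3 (mul_pos hk (coth_pos ht)).le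
    linarith
  have hd := hs.hasDerivAt_F ha ht
  rw [h0, mul_zero, zero_add] at hd
  have hneg : k / sinh t ^ 2 * Q a u v t < 0 := mul_neg_of_pos_of_neg (by positivity) hQ0
  filter_upwards [eventually_right_lt hd hneg] with s hs'
  rwa [h0] at hs'

lemma cos_ang_eq_zero_iff (hs : Sol k a α u v) (hα : 0 < α) (ha : 0 < a) (hk : 0 < k) {t : ℝ}
    (ht : 0 < t) : cos (ang k a α u v t) = 0 ↔ u t = 0 := by
  have hN := hs.N_pos hα ha hk ht
  have hsq : 0 < √(N a u v t) := sqrt_pos.2 hN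
  rw [(hs.cos_sin_ang hα ha hk ht).1, div_eq_zero_iff, or_iff_left hsq.ne', X]
  constructor
  · intro h
    rcases mul_eq_zero.1 h with h | h
    · by_contra hne
      exact absurd h (rpow_pos_of_pos (abs_pos.2 hne) _).ne'
    · exact h
  · intro h; rw [h, mul_zero]

lemma isolated (hs : Sol k a α u v) (hα : 0 < α) (ha : 0 < a) (hk : 0 < k) {t : ℝ}
    (ht : 0 < t) : ∀ᶠ s in 𝓝[≠] t, cos (ang k a α u v s) ≠ 0 := by
  have h1 : ∀ᶠ s in 𝓝[≠] t, u s ≠ 0 := by
    by_cases h : u t = 0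
    · have hv : v t ≠ 0 := by
        intro h2
        have hN := hs.N_pos hα ha hk ht
        rw [N, X, Y, h, h2] at hN
        simp at hN
      exact (hs.hu t ht).eventually_ne hv
    · exact ((hs.continuousAt_u ht).eventually_ne h).filter_mono nhdsWithin_le_nhds
  filter_upwards [h1, mem_nhdsWithin_of_mem_nhds (Ioi_mem_nhds ht)] with s hs1 hs2
  rw [Ne, hs.cos_ang_eq_zero_iff hα ha hk hs2]
  exact hs1

/-- The flow attached to a solution. -/
noncomputable def toFlow (hs : Sol k a α u v) (hα : 0 < α) (ha : 0 < a) (hk : 0 < k) :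
    Flow k (√(a + 1)) (a / (a + 1)) where
  φ := ang k a α u v
  w := wt a α u v
  m := √(a + 1) * α ^ a / (k + 1)
  m_pos := by
    have := rpow_pos_of_pos hα a
    positivity
  φ_cont := hs.continuous_ang hα ha hk
  w_cont := hs.wt_cont hα ha hk
  w_pos := hs.wt_pos hα ha hk
  φ_neg := fun t ht => ang_neg ht
  dφ := fun t ht => hs.ang_deriv hα ha hk ht
  dw := fun t ht => hs.hasDerivAt_wt hα ha hk ht
  lim := by
    have hα' : (0 : ℝ) < α ^ (a + 1) := rpow_pos_of_pos hα _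
    have h := (((hs.tendsto_cY).mul hs.hu0).div (hs.tendsto_N hα ha) (by positivity)).const_sub
      (√(a + 1))
    have e : √(a + 1) - √(a + 1) * (k * α ^ (2 * a + 1) / (k + 1)) * α / (α ^ (a + 1)) ^ 2 =
        √(a + 1) / (k + 1) := by
      have h1 : (α ^ (a + 1)) ^ 2 = α ^ (2 * a + 1) * α := by
        rw [← rpow_natCast (α ^ (a + 1)) 2, ← rpow_mul hα.le, ← rpow_add_one hα.ne']
        congr 1
        push_cast; ring
      have h2 : (0 : ℝ) < α ^ (2 * a + 1) := rpow_pos_of_pos hα _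
      rw [h1]
      field_simp
      ring
    rw [e] at h
    refine h.congr' ?_
    filter_upwards [self_mem_nhdsWithin] with t ht
    have ht' : 0 < t := ht
    rw [mul_assoc (k * (cosh t / sinh t)) (wt a α u v t), hs.H_ang hα ha hk ht']
    simp only [Pi.div_apply]
    ring
  iso := fun t ht => hs.isolated hα ha hk ht
  crit1 := by
    intro t ht h0 hl
    have hq : 0 < √(a + 1) := sqrt_pos.2 (by linarith)
    have hN := hs.N_pos hα ha hk ht
    rw [hs.Phi_eq hα ha hk ht] at h0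
    have h1 : F k a u v t = 0 := by
      rcases mul_eq_zero.1 h0 with h | h
      · exact absurd h (by positivity)
      · exact h
    refine hs.F_crit1 hα ha hk ht h1 ?_
    filter_upwards [hl, Ioo_mem_nhdsLT ht] with s hs1 hs2
    rw [hs.Phi_eq hα ha hk hs2.1] at hs1
    have hNs := hs.N_pos hα ha hk hs2.1
    exact (pos_iff_pos_of_mul_pos hs1).1 (by positivity)
  crit2 := by
    intro t ht h0 hcr
    have hq : 0 < √(a + 1) := sqrt_pos.2 (by linarith)
    have hN := hs.N_pos hα ha hk ht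
    rw [hs.Phi_eq hα ha hk ht] at h0
    have h1 : F k a u v t = 0 := by
      rcases mul_eq_zero.1 h0 with h | h
      · exact absurd h (by positivity)
      · exact h
    filter_upwards [hs.F_crit2 hα ha hk ht h1 hcr, self_mem_nhdsWithin] with s hs1 hs2
    have hs2' : 0 < s := ht.trans hs2
    rw [hs.Phi_eq hα ha hk hs2']
    have hNs := hs.N_pos hα ha hk hs2'
    exact mul_neg_of_pos_of_neg (by positivity) hs1

end Sol

end Pool.Agent.MP815fa1
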